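import Pool.Agent.W277.UH.G1
import Pool.Agent.W277.UH.H9

/-!
# The bound for finite stable sets, uniformly in the field
-/

namespace Pool.Agent.W277.UH

open Pool.Agent.W277.UB Pool.Agent.W277.UG Finset Polynomial

universe u v w

/-- **Uniform boundedness for finite stable sets.** -/
theorem card_stableU (d : ℕ) (hd : 2 ≤ d) : ∃ B : ℕ,
    ∀ (k : Type v) (K : Type u) [Field k] [CharZero k] [Field K] [Algebra k K] [DecidableEq K]
    (Q : PlaceData.{w} k K) (p q : Polynomial K), p.natDegree ≤ d → q.natDegree = d → IsCoprime p q →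
    ∀ P : Finset K, (∀ z ∈ P, q.eval z ≠ 0 ∧ p.eval z / q.eval z ∈ P) →
    ¬ ConjConst k p q d →
    P.card ≤ max B ((q₀ d) ^ (48 * d * (d + 1) * Q.lossT.toNat)) := by
  classical
  obtain ⟨N₀, M, hglob⟩ := global_boundU.{u, v, w} d hd
  refine ⟨N₀ + 4 * ((M + 3) * (d + 1)) + (3 * d + 4) + q₀ d, ?_⟩
  intro k K _ _ _ _ _ Q p q hp hq hco P hP hiso
  by_cases hN : N₀ + 4 * ((M + 3) * (d + 1)) + (3 * d + 4) + q₀ d ≤ P.card
  swap
  · exact (not_le.mp hN).le.trans (le_max_left _ _)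
  apply le_max_of_le_right
  have hdR : (2 : ℝ) ≤ d := by exact_mod_cast hd
  have hqP : q₀ d < P.card := by omega
  have hres := res_ne d p q hp hq (by omega) hco
  set r := resultant q p d d with hr
  set fz : K → K := fun z => p.eval z / q.eval z with hfz
  have hf : ∀ z ∈ P, fz z ∈ P := fun z hz => (hP z hz).2
  set E : Finset K := insert r (P.image q.eval ∪ P.offDiag.image fun w => w.1 - w.2) with hE
  set S : Finset Q.Pl := Q.lossS ∪ E.biUnion (fun x => if h : x ≠ 0 then (Q.fin x h).toFinset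
    else ∅) with hS
  have hSE : ∀ v, v ∉ S → ∀ x ∈ E, x ≠ 0 → Q.ord v x = 0 := by
    intro v hv x hx hx0
    by_contra h
    apply hv
    rw [hS, Finset.mem_union]
    right
    rw [Finset.mem_biUnion]
    refine ⟨x, hx, ?_⟩
    rw [dif_pos hx0, Set.Finite.mem_toFinset]
    exact h
  have hrE : r ∈ E := Finset.mem_insert_self _ _
  have hqE : ∀ z ∈ P, q.eval z ∈ E := fun z hz => Finset.mem_insert_of_mem
    (Finset.mem_union_left _ (Finset.mem_image_of_mem _ hz))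
  have hxE : ∀ x ∈ P, ∀ y ∈ P, x ≠ y → x - y ∈ E := fun x hx y hy hxy =>
    Finset.mem_insert_of_mem (Finset.mem_union_right _ (Finset.mem_image.mpr
      ⟨(x, y), Finset.mem_offDiag.mpr ⟨hx, hy, hxy⟩, rfl⟩))
  choose a ha using fun v => exists_a d hd P fz hf (fun z => (Q.ord v (q.eval z) : ℝ))
  set ρ : Q.Pl → ℝ := fun v => (Q.ord v r : ℝ) / (d * ((d : ℝ) - 1)) with hρ
  have hL : ∀ v, Nonempty (LD Q v d P (a v) (ρ v)) := fun v =>
    local_all' Q v d hd p q hp hq hco P hP (a v) (ha v) (ρ v) hres rfl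
  let L : ∀ v, LD Q v d P (a v) (ρ v) := fun v => Classical.choice (hL v)
  have hS1 : ∀ v, v ∉ S → ∀ x ∈ P, ∀ y ∈ P, x ≠ y → Q.ord v (x - y) = 0 :=
    fun v hv x hx y hy hxy => hSE v hv _ (hxE x hx y hy hxy) (sub_ne_zero.mpr hxy)
  have hS2 : ∀ v, v ∉ S → (∀ x ∈ P, a v x = 0) ∧ ρ v = 0 := by
    intro v hv
    constructor
    · apply stable_zero d hd P fz hf
      intro z hz
      rw [ha v z hz, hSE v hv _ (hqE z hz) (hP z hz).1]
      simp
    · simp only [hρ]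
      rw [hSE v hv r hrE hres]
      simp
  have hS3 : Q.lossS ⊆ S := Finset.subset_union_left
  have hwa : ∀ x ∈ P, ∑ v ∈ S, (Q.wt v : ℝ) * a v x = 0 := by
    apply stable_zero d hd P fz hf (fun x => ∑ v ∈ S, (Q.wt v : ℝ) * a v x)
    intro z hz
    have h1 := prod_zero Q S (q.eval z) (hP z hz).1
      (fun v hv => hSE v hv _ (hqE z hz) (hP z hz).1)
    have h2 : ∑ v ∈ S, (Q.wt v : ℝ) * (Q.ord v (q.eval z) : ℝ) = 0 := by exact_mod_cast h1
    have h3 : (d : ℝ) * ∑ v ∈ S, (Q.wt v : ℝ) * a v z =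
        ∑ v ∈ S, (Q.wt v : ℝ) * (Q.ord v (q.eval z) : ℝ) +
          ∑ v ∈ S, (Q.wt v : ℝ) * a v (fz z) := by
      rw [Finset.mul_sum, ← Finset.sum_add_distrib]
      apply Finset.sum_congr rfl
      intro v _
      have := ha v z hz
      linear_combination (Q.wt v : ℝ) * this
    rw [h3, h2, zero_add]
  have hwρ : ∑ v ∈ S, (Q.wt v : ℝ) * ρ v = 0 := by
    have h1 := prod_zero Q S r hres (fun v hv => hSE v hv _ hrE hres)
    have h2 : ∑ v ∈ S, (Q.wt v : ℝ) * (Q.ord v r : ℝ) = 0 := by exact_mod_cast h1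
    have h3 : ∑ v ∈ S, (Q.wt v : ℝ) * ρ v =
        (∑ v ∈ S, (Q.wt v : ℝ) * (Q.ord v r : ℝ)) / (d * ((d : ℝ) - 1)) := by
      rw [Finset.sum_div]
      apply Finset.sum_congr rfl
      intro v _
      simp only [hρ]
      ring
    rw [h3, h2, zero_div]
  have hwt : ∀ v, (0 : ℝ) ≤ Q.wt v := fun v => by exact_mod_cast Q.wt_nonneg v
  have hwt1 : ∀ v, (1 : ℝ) ≤ Q.wt v := fun v => by exact_mod_cast Q.wt_one v
  have hpair : ∀ x ∈ P, ∀ y ∈ P, x ≠ y → ∑ v ∈ S, (Q.wt v : ℝ) * GG Q v (a v) (ρ v) x y = 0 := by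
    intro x hx y hy hxy
    have h1 := prod_zero Q S (x - y) (sub_ne_zero.mpr hxy) fun v hv => hS1 v hv x hx y hy hxy
    have h2 : ∑ v ∈ S, (Q.wt v : ℝ) * (Q.ord v (x - y) : ℝ) = 0 := by exact_mod_cast h1
    have h3 : ∀ v, (Q.wt v : ℝ) * GG Q v (a v) (ρ v) x y = (Q.wt v : ℝ) * (Q.ord v (x - y) : ℝ) -
        (Q.wt v : ℝ) * a v x - (Q.wt v : ℝ) * a v y + (Q.wt v : ℝ) * ρ v := by
      intro v
      unfold GG
      ring
    simp_rw [h3]
    rw [Finset.sum_add_distrib, Finset.sum_sub_distrib, Finset.sum_sub_distrib, h2, hwa x hx,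
      hwa y hy, hwρ]
    ring
  have hGG0 : ∀ v, v ∉ S → ∀ x ∈ P, ∀ y ∈ P, x ≠ y → GG Q v (a v) (ρ v) x y = 0 := by
    intro v hv x hx y hy hxy
    unfold GG
    rw [hS1 v hv x hx y hy hxy, (hS2 v hv).1 x hx, (hS2 v hv).1 y hy, (hS2 v hv).2]
    simp
  have hgood : ∀ v, (L v).R = 0 → ∀ x ∈ P, ∀ y ∈ P, x ≠ y → 0 ≤ GG Q v (a v) (ρ v) x y := by
    intro v hv x hx y hy hxy
    rw [(L v).GG_good hv hx hy hxy]
    exact Nat.cast_nonneg _
  -- the global inequality
  have hna : ∀ T ⊆ P, ∀ α β γ : K, (∀ x ∈ T, Q.D x = α * x ^ 2 + β * x + γ) →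
      P.card < (d + 1) * (P \ T).card + (3 * d + 4) := by
    intro T hT α β γ hq2
    by_contra hcon
    push Not at hcon
    exact hiso (conj_of_cross p q d hp hq hd hco P hP T hT
      (fun x0 h0 x1 h1 x2 h2 x hx _ _ _ _ _ => cross_of_quad Q T α β γ hq2 x0 x1 x2 x h0 h1 h2 hx)
      hcon)
  have hH := hglob k K Q S P a ρ L (by omega) hS1 hS2 hS3 hwa hwρ (by
    intro m hm hmM b _ F hF
    apply functional_countR Q p q d hd hp hq hco P hP m hna _ b F hF
    have h1 : (m + 3) * (d + 1) ≤ (M + 3) * (d + 1) := Nat.mul_le_mul_right _ (by omega)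
    omega)
  -- the bad places
  set Bd := S.filter fun v => 1 ≤ (L v).R with hBd
  have hBne : Bd.Nonempty := by
    rw [Finset.nonempty_iff_ne_empty]
    intro h0
    apply hiso
    have hR0 : ∀ v, (L v).R = 0 := by
      intro v
      by_cases hv : v ∈ S
      · by_contra hne
        have : v ∈ Bd := Finset.mem_filter.mpr ⟨hv, Nat.one_le_iff_ne_zero.mpr hne⟩
        rw [h0] at this
        exact absurd this (Finset.notMem_empty v)
      · exact R_zero hd (L v) hqP (hGG0 v hv)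
    have hGGz : ∀ v, ∀ x ∈ P, ∀ y ∈ P, x ≠ y → GG Q v (a v) (ρ v) x y = 0 := by
      intro v x hx y hy hxy
      by_cases hv : v ∈ S
      · have h1 := (Finset.sum_eq_zero_iff_of_nonneg (fun v _ => mul_nonneg (hwt v)
          (hgood v (hR0 v) x hx y hy hxy))).mp (hpair x hx y hy hxy) v hv
        rcases mul_eq_zero.mp h1 with h2 | h2
        · have := hwt1 v
          linarith
        · exact h2
      · exact hGG0 v hv x hx y hy hxy
    apply conj_of_cross p q d hp hq hd hco P hP P (Finset.Subset.refl _)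
    · intro x0 h0 x1 h1 x2 h2 x hx h01 h02 h12 hx2 hx0
      have n1 := sub_ne_zero.mpr hx0
      have n2 := sub_ne_zero.mpr h12
      have n3 := sub_ne_zero.mpr hx2
      have n4 := sub_ne_zero.mpr h01.symm
      apply Q.const _ (div_ne_zero (mul_ne_zero n1 n2) (mul_ne_zero n3 n4))
      intro v
      rw [PlaceData.ord_div (mul_ne_zero n1 n2) (mul_ne_zero n3 n4), Q.ord_mul v _ _ n1 n2,
        Q.ord_mul v _ _ n3 n4]
      have g1 := hGGz v x hx x0 h0 hx0
      have g2 := hGGz v x1 h1 x2 h2 h12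
      have g3 := hGGz v x hx x2 h2 hx2
      have g4 := hGGz v x1 h1 x0 h0 h01.symm
      unfold GG at g1 g2 g3 g4
      have g5 : (Q.ord v (x - x0) : ℝ) + Q.ord v (x1 - x2) -
          (Q.ord v (x - x2) + Q.ord v (x1 - x0)) = 0 := by linarith
      have g6 : Q.ord v (x - x0) + Q.ord v (x1 - x2) -
          (Q.ord v (x - x2) + Q.ord v (x1 - x0)) = 0 := by exact_mod_cast g5
      omega
    · rw [Finset.sdiff_self, Finset.card_empty, mul_zero, zero_add]
      omega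
  have hcardB : P.card ≤ (q₀ d) ^ Bd.card := by
    by_contra hcon
    push Not at hcon
    obtain ⟨v₀, hv₀⟩ := hBne
    have hcol : ∀ v, ∃ χ : K → Fin (q₀ d), v ∈ Bd → ∀ x ∈ P, ∀ y ∈ P,
        x ≠ y → χ x = χ y → 0 < GG Q v (a v) (ρ v) x y := by
      intro v
      by_cases hv : v ∈ Bd
      · obtain ⟨χ, hχ⟩ := (L v).GG_colour hd (Finset.mem_filter.mp hv).2
        exact ⟨χ, fun _ => hχ⟩
      · obtain ⟨χ, hχ⟩ := (L v₀).GG_colour hd (Finset.mem_filter.mp hv₀).2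
        exact ⟨χ, fun h => absurd h hv⟩
    choose χ hχ using hcol
    obtain ⟨x, hx, y, hy, hxy, hc⟩ := Finset.exists_ne_map_eq_of_card_lt_of_maps_to
      (s := P) (t := (Finset.univ : Finset ({v // v ∈ Bd} → Fin (q₀ d))))
      (f := fun x => fun v : {v // v ∈ Bd} => χ v.1 x) (by
        rw [Finset.card_univ, Fintype.card_fun, Fintype.card_fin, Fintype.card_coe]
        exact hcon) (fun _ _ => Finset.mem_univ _)
    have hlt : ∀ v ∈ Bd, 0 < GG Q v (a v) (ρ v) x y := fun v hv =>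
      hχ v hv x hx y hy hxy (congrFun hc ⟨v, hv⟩)
    have hsum : 0 < ∑ v ∈ S, (Q.wt v : ℝ) * GG Q v (a v) (ρ v) x y := by
      apply Finset.sum_pos'
      · intro v hv
        apply mul_nonneg (hwt v)
        by_cases hvB : v ∈ Bd
        · exact (hlt v hvB).le
        · apply hgood v _ x hx y hy hxy
          by_contra hne
          exact hvB (Finset.mem_filter.mpr ⟨hv, Nat.one_le_iff_ne_zero.mpr hne⟩)
      · refine ⟨v₀, (Finset.mem_filter.mp hv₀).1, mul_pos ?_ (hlt v₀ hv₀)⟩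
        linarith [hwt1 v₀]
    rw [hpair x hx y hy hxy] at hsum
    exact lt_irrefl _ hsum
  have hBc : (Bd.card : ℝ) ≤ ∑ v ∈ S, (Q.wt v : ℝ) * (L v).R := by
    have h3 : ∑ v ∈ Bd, (Q.wt v : ℝ) * (L v).R ≤ ∑ v ∈ S, (Q.wt v : ℝ) * (L v).R :=
      Finset.sum_le_sum_of_subset_of_nonneg (Finset.filter_subset _ _) fun v _ _ =>
        mul_nonneg (hwt v) (Nat.cast_nonneg _)
    refine le_trans ?_ h3
    have h4 : (Bd.card : ℝ) = ∑ v ∈ Bd, (1 : ℝ) := by simp
    rw [h4]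
    apply Finset.sum_le_sum
    intro v hv
    have h5 : (1 : ℝ) ≤ (L v).R := by exact_mod_cast (Finset.mem_filter.mp hv).2
    have h6 := hwt1 v
    nlinarith
  have hBc2 : Bd.card ≤ 48 * d * (d + 1) * Q.lossT.toNat := by
    have h1 := hBc.trans hH
    have h2 : (Q.lossT : ℝ) ≤ (Q.lossT.toNat : ℝ) := by exact_mod_cast Int.self_le_toNat _
    have h3 : (Bd.card : ℝ) ≤ 48 * (d : ℝ) * (d + 1) * (Q.lossT.toNat : ℝ) :=
      h1.trans (mul_le_mul_of_nonneg_left h2 (by positivity))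
    exact_mod_cast h3
  have hq0 : 1 ≤ q₀ d := by
    obtain ⟨v₀, hv₀⟩ := hBne
    obtain ⟨χ, _⟩ := (L v₀).GG_colour hd (Finset.mem_filter.mp hv₀).2
    have := (χ 0).2
    omega
  exact hcardB.trans (Nat.pow_le_pow_right hq0 hBc2)

end Pool.Agent.W277.UH
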