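import Pool.Agent.W277.UH.F1
import Pool.Agent.W277.UH.G2

/-!
# All rational maps on the projective line, uniformly in the field
-/

namespace Pool.Agent.W277.UH

open Pool.Agent.W277.UB Pool.Agent.W277.UG Finset Polynomial

universe u v w

/-- **Uniform boundedness for stable subsets of the projective line.** -/
theorem card_stablePU (d : ℕ) (hd : 2 ≤ d) : ∃ B : ℕ,
    ∀ (k : Type v) (K : Type u) [Field k] [CharZero k] [Field K] [Algebra k K]
    (Q : PlaceData.{w} k K) (p q : Polynomial K), max p.natDegree q.natDegree = d → IsCoprime p q →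
    ∀ P : Finset (Option K), (∀ z ∈ P, ratP1 p q d z ∈ P) →
    ¬ ConjConst k p q d →
    P.card ≤ max B ((q₀ d) ^ (48 * d * (d + 1) * Q.lossT.toNat)) := by
  classical
  obtain ⟨B, hB⟩ := card_stableU.{u, v, w} d hd
  refine ⟨B, ?_⟩
  intro k K _ _ _ _ Q p q hmax hco P hP hiso
  have hK : CharZero K := charZero_of_injective_algebraMap (algebraMap k K).injective
  have hinf : Infinite K := inferInstance
  have hp : p.natDegree ≤ d := by rw [← hmax]; exact le_max_left _ _
  have hq : q.natDegree ≤ d := by rw [← hmax]; exact le_max_right _ _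
  have hlead : p.coeff d ≠ 0 ∨ q.coeff d ≠ 0 := by
    rcases le_total p.natDegree q.natDegree with h | h
    · right
      rw [max_eq_right h] at hmax
      rw [← hmax]
      apply leadingCoeff_ne_zero.mpr
      rintro rfl
      rw [natDegree_zero] at hmax
      omega
    · left
      rw [max_eq_left h] at hmax
      rw [← hmax]
      apply leadingCoeff_ne_zero.mpr
      rintro rfl
      rw [natDegree_zero] at hmax
      omega
  have hX : p - X * q ≠ 0 := by
    intro h0
    have h1 : p = X * q := sub_eq_zero.mp h0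
    have h2 : IsUnit q := by
      obtain ⟨a, b, hab⟩ := hco
      rw [h1] at hab
      apply IsUnit.of_mul_eq_one (a * X + b)
      rw [← hab]
      ring
    have h3 := natDegree_eq_zero_of_isUnit h2
    have h4 : p.natDegree ≤ 1 := by
      rw [h1]
      refine natDegree_mul_le.trans ?_
      rw [h3, add_zero]
      exact natDegree_X_le
    rw [h3] at hmax
    omega
  obtain ⟨c, hc⟩ := Infinite.exists_notMem_finset
    ((P.image fun z => z.getD 0) ∪ (p - X * q).roots.toFinset)
  rw [Finset.mem_union, not_or] at hc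
  have hcP : some c ∉ P := by
    intro h
    apply hc.1
    exact Finset.mem_image.mpr ⟨some c, h, rfl⟩
  have hcr : p.eval c - c * q.eval c ≠ 0 := by
    intro h
    apply hc.2
    rw [Multiset.mem_toFinset, mem_roots hX, IsRoot.def, eval_sub, eval_mul, eval_X]
    exact h
  have hpq : (p - C c * q).natDegree ≤ d :=
    (natDegree_sub_le _ _).trans (max_le hp ((natDegree_C_mul_le _ _).trans hq))
  have hq'd : (pc d (p - C c * q) c).natDegree = d := by
    apply le_antisymm (pc_degree _ _ _)
    apply le_natDegree_of_ne_zero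
    rw [pc_coeff d _ hpq, eval_sub, eval_mul, eval_C]
    exact hcr
  have hco' := pc_coprime d (by omega) p q hp hq hco hlead c
  have hinj : Set.InjOn (phc c) (P : Set (Option K)) := by
    intro z hz z' hz' h
    rcases z with _ | x
    · rcases z' with _ | x'
      · rfl
      · exfalso
        have hx' : x' ≠ c := by
          rintro rfl
          exact hcP hz'
        have h1 : (0 : K) = (x' - c)⁻¹ := h
        exact inv_ne_zero (sub_ne_zero.mpr hx') h1.symm
    · rcases z' with _ | x'
      · exfalso
        have hx : x ≠ c := by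
          rintro rfl
          exact hcP hz
        have h1 : (x - c)⁻¹ = (0 : K) := h
        exact inv_ne_zero (sub_ne_zero.mpr hx) h1
      · have h1 : (x - c)⁻¹ = (x' - c)⁻¹ := h
        have h2 := inv_injective h1
        have h3 : x = x' := sub_left_injective h2
        rw [h3]
  have hst : ∀ y ∈ P.image (phc c), (pc d (p - C c * q) c).eval y ≠ 0 ∧
      (pc d q c).eval y / (pc d (p - C c * q) c).eval y ∈ P.image (phc c) := by
    intro y hy
    obtain ⟨z, hz, rfl⟩ := Finset.mem_image.mp hy
    have hFz := hP z hz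
    rcases z with _ | x
    · have hval : phc c (none : Option K) = 0 := rfl
      rw [hval, pc_eval_zero, pc_eval_zero, coeff_sub, coeff_C_mul]
      by_cases hqd : q.coeff d = 0
      · have hpd : p.coeff d ≠ 0 := hlead.resolve_right (fun h => h hqd)
        rw [hqd, mul_zero, sub_zero, zero_div]
        rw [ratP1_none0 p q d hqd] at hFz
        exact ⟨hpd, Finset.mem_image.mpr ⟨none, hFz, rfl⟩⟩
      · rw [ratP1_none p q d hqd] at hFz
        have h1 : p.coeff d / q.coeff d ≠ c := by
          intro h
          rw [h] at hFz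
          exact hcP hFz
        have h2 : p.coeff d - c * q.coeff d ≠ 0 := by
          intro h
          apply h1
          rw [div_eq_iff hqd]
          exact sub_eq_zero.mp h
        refine ⟨h2, Finset.mem_image.mpr ⟨_, hFz, ?_⟩⟩
        show (p.coeff d / q.coeff d - c)⁻¹ = _
        rw [div_sub' hqd, inv_div, mul_comm (q.coeff d) c]
    · have hxc : x ≠ c := by
        rintro rfl
        exact hcP hz
      have h0 : x - c ≠ 0 := sub_ne_zero.mpr hxc
      have hval : phc c (some x) = (x - c)⁻¹ := rfl
      have e1 := pc_eval_inv d q hq c x hxc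
      have e2 := pc_eval_inv d (p - C c * q) hpq c x hxc
      rw [eval_sub, eval_mul, eval_C] at e2
      rw [hval]
      have hpow : (x - c) ^ d ≠ 0 := pow_ne_zero _ h0
      have hratio : (pc d q c).eval (x - c)⁻¹ / (pc d (p - C c * q) c).eval (x - c)⁻¹ =
          q.eval x / (p.eval x - c * q.eval x) := by
        have h9 : (pc d q c).eval (x - c)⁻¹ / (pc d (p - C c * q) c).eval (x - c)⁻¹ =
            ((x - c) ^ d * (pc d q c).eval (x - c)⁻¹) /
              ((x - c) ^ d * (pc d (p - C c * q) c).eval (x - c)⁻¹) :=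
          (mul_div_mul_left _ _ hpow).symm
        rw [h9, e1, e2]
      rw [hratio]
      have hne' : p.eval x - c * q.eval x ≠ 0 →
          (pc d (p - C c * q) c).eval (x - c)⁻¹ ≠ 0 := by
        intro h h'
        rw [h', mul_zero] at e2
        exact h e2.symm
      by_cases hqx : q.eval x = 0
      · have hpx : p.eval x ≠ 0 := by
          intro hpx
          obtain ⟨a, b, hab⟩ := hco
          have := congrArg (eval x) hab
          rw [eval_add, eval_mul, eval_mul, hpx, hqx, mul_zero, mul_zero, add_zero,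
            eval_one] at this
          exact zero_ne_one this
        rw [ratP1_some0 p q d x hqx] at hFz
        refine ⟨hne' (by rw [hqx, mul_zero, sub_zero]; exact hpx),
          Finset.mem_image.mpr ⟨none, hFz, ?_⟩⟩
        rw [hqx, zero_div]
        rfl
      · rw [ratP1_some p q d x hqx] at hFz
        have h1 : p.eval x / q.eval x ≠ c := by
          intro h
          rw [h] at hFz
          exact hcP hFz
        have h2 : p.eval x - c * q.eval x ≠ 0 := by
          intro h
          apply h1
          rw [div_eq_iff hqx]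
          exact sub_eq_zero.mp h
        refine ⟨hne' h2, Finset.mem_image.mpr ⟨_, hFz, ?_⟩⟩
        show (p.eval x / q.eval x - c)⁻¹ = _
        rw [div_sub' hqx, inv_div, mul_comm (q.eval x) c]
  have h1 := hB k K Q (pc d q c) (pc d (p - C c * q) c) (pc_degree _ _ _) hq'd hco' (P.image (phc c)) hst
    (fun h => hiso (conj_transfer d p q hp hq c h))
  rw [Finset.card_image_of_injOn hinj] at h1
  exact h1

/-- Uniform boundedness of preperiodic points. -/
theorem prePer_RU (d : ℕ) (hd : 2 ≤ d) : ∃ B : ℕ,
    ∀ (k : Type v) (K : Type u) [Field k] [CharZero k] [Field K] [Algebra k K]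
    (Q : PlaceData.{w} k K) (p q : Polynomial K), max p.natDegree q.natDegree = d → IsCoprime p q →
    ¬ ConjConst k p q d →
    {z : Option K | (Set.range fun m : ℕ => (ratP1 p q d)^[m] z).Finite}.encard ≤
      ((max B ((q₀ d) ^ (48 * d * (d + 1) * Q.lossT.toNat)) : ℕ) : ℕ∞) := by
  classical
  obtain ⟨B₀, hB₀⟩ := card_stablePU.{u, v, w} d hd
  refine ⟨B₀, fun k K _ _ _ _ Q p q hmax hco hiso => ?_⟩
  have hB := hB₀ k K Q
  obtain ⟨B, hBdef⟩ : ∃ B, B = max B₀ ((q₀ d) ^ (48 * d * (d + 1) * Q.lossT.toNat)) := ⟨_, rfl⟩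
  rw [← hBdef] at hB ⊢
  by_contra hcon
  push Not at hcon
  obtain ⟨T, hTs, hT⟩ := Set.exists_subset_encard_eq (Order.add_one_le_of_lt hcon)
  have hTf : T.Finite := by
    apply Set.finite_of_encard_eq_coe (k := B + 1)
    rw [hT]
    norm_cast
  have h1 : (⋃ z ∈ T, Set.range fun m : ℕ => (ratP1 p q d)^[m] z).Finite :=
    hTf.biUnion fun z hz => hTs hz
  have h2 := hB p q hmax hco h1.toFinset (by
    intro z hz
    rw [Set.Finite.mem_toFinset, Set.mem_iUnion₂] at hz ⊢
    obtain ⟨w, hw, m, hm⟩ := hz
    refine ⟨w, hw, m + 1, ?_⟩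
    simp only at hm ⊢
    rw [Function.iterate_succ_apply', hm]) hiso
  have h3 : hTf.toFinset ⊆ h1.toFinset := by
    intro z hz
    rw [Set.Finite.mem_toFinset] at hz ⊢
    rw [Set.mem_iUnion₂]
    exact ⟨z, hz, 0, rfl⟩
  have h4 := Finset.card_le_card h3
  have h5 : (hTf.toFinset.card : ℕ∞) = B + 1 := by
    rw [← hT, hTf.encard_eq_coe_toFinset_card]
  have h6 : hTf.toFinset.card = B + 1 := by exact_mod_cast h5
  omega


/-- **Uniform boundedness for all rational maps over function fields of characteristic zero.** -/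
theorem ubp_rationalU : ∃ N : ℕ → ℕ, ∀ (k : Type v) (K : Type u) [Field k] [CharZero k] [Field K]
    [Algebra k K], (⊤ : IntermediateField k K).FG →
    (∃ x : K, Transcendental k x ∧ Algebra.IsAlgebraic (IntermediateField.adjoin k {x}) K) →
    ∃ c : ℕ, ((∃ t : K, IntermediateField.adjoin k {t} = ⊤) → c = 0) ∧ ∀ d : ℕ, 2 ≤ d →
    ∀ p q : Polynomial K, IsCoprime p q → max p.natDegree q.natDegree = d →
    (¬ ∃ a b c e : K, a * e - b * c ≠ 0 ∧ ∃ u w : Polynomial K, (u ≠ 0 ∨ w ≠ 0) ∧
      u.natDegree ≤ d ∧ w.natDegree ≤ d ∧ (∀ n, IsAlgebraic k (u.coeff n)) ∧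
      (∀ n, IsAlgebraic k (w.coeff n)) ∧
      (C a * p + C b * q) * ∑ i ∈ Finset.range (d + 1),
        C (w.coeff i) * (C a * X + C b) ^ i * (C c * X + C e) ^ (d - i) =
      (C c * p + C e * q) * ∑ i ∈ Finset.range (d + 1),
        C (u.coeff i) * (C a * X + C b) ^ i * (C c * X + C e) ^ (d - i)) →
    {z : Option K | (Set.range fun m : ℕ => (ratP1 p q d)^[m] z).Finite}.encard ≤
      ((N d ^ (c + 1) : ℕ) : ℕ∞) := by
  classical
  have h1 : ∀ d : ℕ, ∃ B : ℕ, 2 ≤ d → ∀ (k : Type v) (K : Type u) [Field k] [CharZero k] [Field K]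
      [Algebra k K] (Q : PlaceData.{v} k K) (p q : Polynomial K),
      max p.natDegree q.natDegree = d → IsCoprime p q → ¬ ConjConst k p q d →
      {z : Option K | (Set.range fun m : ℕ => (ratP1 p q d)^[m] z).Finite}.encard ≤
      ((max B ((q₀ d) ^ (48 * d * (d + 1) * Q.lossT.toNat)) : ℕ) : ℕ∞) := by
    intro d
    by_cases hd : 2 ≤ d
    · obtain ⟨B, hB⟩ := prePer_RU.{u, v, v} d hd
      exact ⟨B, fun _ => hB⟩
    · exact ⟨0, fun h => absurd h hd⟩
  have h2 : ∀ d : ℕ, ∃ B : ℕ, 2 ≤ d → ∀ (k : Type u) (K : Type u) [Field k] [CharZero k] [Field K]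
      [Algebra k K] (Q : PlaceData.{u} k K) (p q : Polynomial K),
      max p.natDegree q.natDegree = d → IsCoprime p q → ¬ ConjConst k p q d →
      {z : Option K | (Set.range fun m : ℕ => (ratP1 p q d)^[m] z).Finite}.encard ≤
      ((max B ((q₀ d) ^ (48 * d * (d + 1) * Q.lossT.toNat)) : ℕ) : ℕ∞) := by
    intro d
    by_cases hd : 2 ≤ d
    · obtain ⟨B, hB⟩ := prePer_RU.{u, u, u} d hd
      exact ⟨B, fun _ => hB⟩
    · exact ⟨0, fun h => absurd h hd⟩
  choose B₁ hB₁ using h1
  choose B₂ hB₂ using h2
  refine ⟨fun d => B₁ d + B₂ d + q₀ d ^ (48 * d * (d + 1)) + 1, ?_⟩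
  intro k K _ _ _ _ hFG hx
  have hpow : ∀ (d L B : ℕ), B ≤ B₁ d + B₂ d → max B ((q₀ d) ^ (48 * d * (d + 1) * L)) ≤
      (B₁ d + B₂ d + q₀ d ^ (48 * d * (d + 1)) + 1) ^ (L + 1) := by
    intro d L B hB
    apply max_le
    · calc B ≤ B₁ d + B₂ d + q₀ d ^ (48 * d * (d + 1)) + 1 := by omega
        _ = (B₁ d + B₂ d + q₀ d ^ (48 * d * (d + 1)) + 1) ^ 1 := (pow_one _).symm
        _ ≤ _ := Nat.pow_le_pow_right (by omega) (by omega)
    · rw [pow_mul]
      calc ((q₀ d) ^ (48 * d * (d + 1))) ^ L ≤
          (B₁ d + B₂ d + q₀ d ^ (48 * d * (d + 1)) + 1) ^ L := Nat.pow_le_pow_left (by omega) _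
        _ ≤ _ := Nat.pow_le_pow_right (by omega) (by omega)
  by_cases hrat : ∃ t : K, IntermediateField.adjoin k {t} = ⊤
  · obtain ⟨t, htop⟩ := hrat
    have ht : Transcendental k t := by
      intro hta
      obtain ⟨x, hx1, -⟩ := hx
      apply hx1
      have h1 : x ∈ IntermediateField.adjoin k {t} := by
        rw [htop]
        exact IntermediateField.mem_top
      have h2 : Algebra.IsAlgebraic k (IntermediateField.adjoin k {t}) :=
        IntermediateField.isAlgebraic_adjoin_simple hta.isIntegral
      exact (IntermediateField.isAlgebraic_iff.mp (h2.isAlgebraic ⟨x, h1⟩))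
    obtain ⟨Q, hQ⟩ := Pool.Agent.W277.UF.exists_pl_rational k K t ht htop
    refine ⟨0, fun _ => rfl, fun d hd p q hco hmax hiso => ?_⟩
    have h3 := hB₁ d hd k K Q p q hmax hco (by
      rintro ⟨a, b, c, e, hdet, u, w, hne, hu, hw, hid⟩
      have hinj := (algebraMap k K).injective
      refine hiso ⟨a, b, c, e, hdet, u.map (algebraMap _ K), w.map (algebraMap _ K), ?_,
        natDegree_map_le.trans hu, natDegree_map_le.trans hw, fun n => ?_, fun n => ?_, ?_⟩
      · rcases hne with h | h
        · exact Or.inl ((Polynomial.map_ne_zero_iff hinj).mpr h)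
        · exact Or.inr ((Polynomial.map_ne_zero_iff hinj).mpr h)
      · rw [coeff_map]
        exact isAlgebraic_algebraMap _
      · rw [coeff_map]
        exact isAlgebraic_algebraMap _
      · unfold hc hev at hid
        simp only [coeff_map (f := (C : K →+* Polynomial K))] at hid
        exact hid)
    rw [hQ] at h3
    refine h3.trans ?_
    exact_mod_cast hpow d 0 (B₁ d) (by omega)
  · obtain ⟨Q⟩ := exists_placeData_ff k K hFG hx
    have : CharZero (algebraicClosure k K) := charZero_of_injective_algebraMap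
      (algebraMap k (algebraicClosure k K)).injective
    refine ⟨Q.lossT.toNat, fun h1 => absurd h1 hrat, fun d hd p q hco hmax hiso => ?_⟩
    have h3 := hB₂ d hd (algebraicClosure k K) K Q p q hmax hco (by
      rintro ⟨a, b, c, e, hdet, u, w, hne, hu, hw, hid⟩
      have hinj := (algebraMap (algebraicClosure k K) K).injective
      refine hiso ⟨a, b, c, e, hdet, u.map (algebraMap _ K), w.map (algebraMap _ K), ?_,
        natDegree_map_le.trans hu, natDegree_map_le.trans hw, fun n => ?_, fun n => ?_, ?_⟩
      · rcases hne with h | h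
        · exact Or.inl ((Polynomial.map_ne_zero_iff hinj).mpr h)
        · exact Or.inr ((Polynomial.map_ne_zero_iff hinj).mpr h)
      · rw [coeff_map]
        exact mem_algebraicClosure_iff.mp (u.coeff n).2
      · rw [coeff_map]
        exact mem_algebraicClosure_iff.mp (w.coeff n).2
      · unfold hc hev at hid
        simp only [coeff_map (f := (C : K →+* Polynomial K))] at hid
        exact hid)
    refine h3.trans ?_
    exact_mod_cast hpow d Q.lossT.toNat (B₂ d) (by omega)

end Pool.Agent.W277.UH
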