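import Pool.Agent.W277.UH.G1
import Pool.Agent.W277.UF.E12

/-!
# All rational maps on the projective line
-/

namespace Pool.Agent.W277.UH

open Pool.Agent.W277.UB Pool.Agent.W277.UG Finset Polynomial

universe u u1 u2

variable {k : Type*} {K : Type u} [Field k] [Field K] [Algebra k K]

/-- the self-map of the projective line given by `p / q` -/
noncomputable def ratP1 {K : Type*} [Field K] (p q : Polynomial K) (d : ℕ) : Option K → Option K
  | some x => by classical exact if q.eval x = 0 then none else some (p.eval x / q.eval x)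
  | none => by classical exact if q.coeff d = 0 then none else some (p.coeff d / q.coeff d)

lemma ratP1_some (p q : Polynomial K) (d : ℕ) (x : K) (h : q.eval x ≠ 0) :
    ratP1 p q d (some x) = some (p.eval x / q.eval x) := by
  unfold ratP1
  exact if_neg h

lemma ratP1_some0 (p q : Polynomial K) (d : ℕ) (x : K) (h : q.eval x = 0) :
    ratP1 p q d (some x) = none := by
  unfold ratP1
  exact if_pos h

lemma ratP1_none (p q : Polynomial K) (d : ℕ) (h : q.coeff d ≠ 0) :
    ratP1 p q d none = some (p.coeff d / q.coeff d) := by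
  unfold ratP1
  exact if_neg h

lemma ratP1_none0 (p q : Polynomial K) (d : ℕ) (h : q.coeff d = 0) :
    ratP1 p q d none = none := by
  unfold ratP1
  exact if_pos h

/-- the coordinate change -/
noncomputable def phc (c : K) : Option K → K
  | some x => (x - c)⁻¹
  | none => 0

/-- the new numerator -/
noncomputable def pc (d : ℕ) (q : Polynomial K) (c : K) : Polynomial K :=
  hc d q (C c * X + C 1) (C 1 * X + C 0)

lemma pc_degree (d : ℕ) (q : Polynomial K) (c : K) : (pc d q c).natDegree ≤ d := by
  have := hc_degree d 1 q _ _ (lin_deg c 1) (lin_deg 1 0)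
  rwa [mul_one] at this

lemma pc_eval (d : ℕ) (q : Polynomial K) (c y : K) : (pc d q c).eval y = hev d q (c * y + 1, y) := by
  unfold pc
  rw [hc_eval]
  simp

lemma pc_eval_inv (d : ℕ) (q : Polynomial K) (hq : q.natDegree ≤ d) (c x : K) (h : x ≠ c) :
    (x - c) ^ d * (pc d q c).eval (x - c)⁻¹ = q.eval x := by
  have h0 : x - c ≠ 0 := sub_ne_zero.mpr h
  rw [pc_eval, ← hev_smul]
  have : (x - c) • ((c * (x - c)⁻¹ + 1, (x - c)⁻¹) : K × K) = (x, 1) := by
    ext
    · simp only [Prod.smul_fst, smul_eq_mul]
      field_simp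
      ring
    · simp only [Prod.smul_snd, smul_eq_mul]
      exact mul_inv_cancel₀ h0
  rw [this, hev_one d q hq]

lemma pc_eval_zero (d : ℕ) (q : Polynomial K) (c : K) : (pc d q c).eval 0 = q.coeff d := by
  rw [pc_eval]
  have : (c * 0 + 1, (0 : K)) = ((1, 0) : K × K) := by simp
  rw [this, hev_zero]
  simp

lemma pc_coeff (d : ℕ) (q : Polynomial K) (hq : q.natDegree ≤ d) (c : K) :
    (pc d q c).coeff d = q.eval c := by
  have h := hc_coeff d 1 q _ _ (lin_deg c 1) (lin_deg (1 : K) 0)
  rw [mul_one] at h
  unfold pc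
  rw [h]
  have e1 : (C c * X + C 1 : Polynomial K).coeff 1 = c := by simp [coeff_one]
  have e2 : (C (1 : K) * X + C 0 : Polynomial K).coeff 1 = 1 := by simp
  rw [e1, e2, hev_one d q hq]

lemma pc_coprime (d : ℕ) (hd : 1 ≤ d) (p q : Polynomial K) (hp : p.natDegree ≤ d)
    (hq : q.natDegree ≤ d) (hco : IsCoprime p q) (hmax : p.coeff d ≠ 0 ∨ q.coeff d ≠ 0) (c : K) :
    IsCoprime (pc d q c) (pc d (p - C c * q) c) := by
  refine (isCoprime_iff_aeval_ne_zero_of_isAlgClosed (k := K) (AlgebraicClosure K) _ _).mpr ?_
  intro y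
  by_contra hcon
  push Not at hcon
  obtain ⟨h1, h2⟩ := hcon
  unfold pc at h1 h2
  rw [hc_aeval] at h1 h2
  set φ := algebraMap K (AlgebraicClosure K) with hφ
  have e1 : aeval y (C c * X + C 1 : Polynomial K) = φ c * y + 1 := by simp [hφ]
  have e2 : aeval y (C 1 * X + C 0 : Polynomial K) = y := by simp
  rw [e1, e2] at h1 h2
  have hpq : (p - C c * q).natDegree ≤ d :=
    (natDegree_sub_le _ _).trans (max_le hp ((natDegree_C_mul_le _ _).trans hq))
  by_cases hy : y = 0
  · rw [hy] at h1 h2
    rw [hev_zero] at h1 h2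
    simp only [mul_zero, zero_add, one_pow, mul_one] at h1 h2
    rw [coeff_map] at h1 h2
    have g1 : q.coeff d = 0 := (map_eq_zero φ).mp h1
    have g2 : (p - C c * q).coeff d = 0 := (map_eq_zero φ).mp h2
    rw [coeff_sub, coeff_C_mul, g1, mul_zero, sub_zero] at g2
    rcases hmax with h | h
    · exact h g2
    · exact h g1
  · rw [hev_eval _ _ (natDegree_map_le.trans hq) _ hy] at h1
    rw [hev_eval _ _ (natDegree_map_le.trans hpq) _ hy] at h2
    have g1 := (mul_eq_zero.mp h1).resolve_left (pow_ne_zero _ hy)
    have g2 := (mul_eq_zero.mp h2).resolve_left (pow_ne_zero _ hy)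
    rw [eval_map_algebraMap] at g1 g2
    rw [map_sub, map_mul, g1, mul_zero, sub_zero] at g2
    obtain ⟨u, w, huw⟩ := hco
    have := congrArg (aeval ((φ c * y + 1, y).1 / (φ c * y + 1, y).2 : AlgebraicClosure K)) huw
    rw [map_add, map_mul, map_mul, g1, g2, mul_zero, mul_zero, add_zero, map_one] at this
    exact zero_ne_one this

/-- transfer of isotriviality -/
lemma conj_transfer [Infinite K] (d : ℕ) (p q : Polynomial K) (hp : p.natDegree ≤ d)
    (hq : q.natDegree ≤ d) (c : K)
    (h : ConjConst k (pc d q c) (pc d (p - C c * q) c) d) : ConjConst k p q d := by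
  obtain ⟨A, B, G, E, hdet, u, w, hne, hu, hw, hid⟩ := h
  refine ⟨B, A - B * c, E, G - E * c, ?_, u, w, hne, hu, hw, ?_⟩
  · intro h0
    apply hdet
    linear_combination -h0
  · apply Polynomial.eq_of_infinite_eval_eq
    apply Set.Infinite.mono (s := {x | x ≠ c})
    · intro x hx
      have hx' : x ≠ c := hx
      have h0 : x - c ≠ 0 := sub_ne_zero.mpr hx'
      have hpq : (p - C c * q).natDegree ≤ d :=
        (natDegree_sub_le _ _).trans (max_le hp ((natDegree_C_mul_le _ _).trans hq))
      have h1 := congrArg (eval (x - c)⁻¹) hid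
      have e1 := pc_eval_inv d q hq c x hx'
      have e2 := pc_eval_inv d (p - C c * q) hpq c x hx'
      rw [eval_sub, eval_mul, eval_C] at e2
      have e3 : ∀ g : Polynomial K, (x - c) ^ d * (Pool.Agent.W277.UH.hc d g (C A * X + C B)
          (C G * X + C E)).eval (x - c)⁻¹ = (Pool.Agent.W277.UH.hc d g
          (C B * X + C (A - B * c)) (C E * X + C (G - E * c))).eval x := by
        intro g
        rw [hc_eval, hc_eval, ← hev_smul]
        congr 1
        ext
        · simp only [Prod.smul_fst, smul_eq_mul, eval_add, eval_mul, eval_C, eval_X]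
          field_simp
          ring
        · simp only [Prod.smul_snd, smul_eq_mul, eval_add, eval_mul, eval_C, eval_X]
          field_simp
          ring
      rw [Set.mem_setOf_eq, eval_mul, eval_mul, ← e3, ← e3]
      simp only [eval_add, eval_mul, eval_C] at h1 ⊢
      have e4 : B * p.eval x + (A - B * c) * q.eval x = (x - c) ^ d *
          (A * (pc d q c).eval (x - c)⁻¹ + B * (pc d (p - C c * q) c).eval (x - c)⁻¹) := by
        linear_combination (-A) * e1 - B * e2
      have e5 : E * p.eval x + (G - E * c) * q.eval x = (x - c) ^ d *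
          (G * (pc d q c).eval (x - c)⁻¹ + E * (pc d (p - C c * q) c).eval (x - c)⁻¹) := by
        linear_combination (-G) * e1 - E * e2
      rw [e4, e5]
      linear_combination ((x - c) ^ d * (x - c) ^ d) * h1
    · exact (Set.finite_singleton c).infinite_compl

/-- **Uniform boundedness for stable subsets of the projective line.** -/
theorem card_stableP [CharZero k] (Q : PlaceData k K) (d : ℕ) (hd : 2 ≤ d) : ∃ B : ℕ,
    ∀ (p q : Polynomial K), max p.natDegree q.natDegree = d → IsCoprime p q →
    ∀ P : Finset (Option K), (∀ z ∈ P, ratP1 p q d z ∈ P) →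
    ¬ ConjConst k p q d → P.card ≤ B := by
  classical
  obtain ⟨B, hB⟩ := card_stableR Q d hd
  refine ⟨B, ?_⟩
  intro p q hmax hco P hP hiso
  have hK : CharZero K := charZero_of_injective_algebraMap (algebraMap k K).injective
  have hinf : Infinite K := inferInstance
  have hp : p.natDegree ≤ d := by rw [← hmax]; exact le_max_left _ _
  have hq : q.natDegree ≤ d := by rw [← hmax]; exact le_max_right _ _
  have hlead : p.coeff d ≠ 0 ∨ q.coeff d ≠ 0 := by
    rcases le_total p.natDegree q.natDegree with h | h
    · right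
      rw [max_eq_right h] at hmax
      rw [← hmax]
      apply leadingCoeff_ne_zero.mpr
      rintro rfl
      rw [natDegree_zero] at hmax
      omega
    · left
      rw [max_eq_left h] at hmax
      rw [← hmax]
      apply leadingCoeff_ne_zero.mpr
      rintro rfl
      rw [natDegree_zero] at hmax
      omega
  have hX : p - X * q ≠ 0 := by
    intro h0
    have h1 : p = X * q := sub_eq_zero.mp h0
    have h2 : IsUnit q := by
      obtain ⟨a, b, hab⟩ := hco
      rw [h1] at hab
      apply IsUnit.of_mul_eq_one (a * X + b)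
      rw [← hab]
      ring
    have h3 := natDegree_eq_zero_of_isUnit h2
    have h4 : p.natDegree ≤ 1 := by
      rw [h1]
      refine natDegree_mul_le.trans ?_
      rw [h3, add_zero]
      exact natDegree_X_le
    rw [h3] at hmax
    omega
  obtain ⟨c, hc⟩ := Infinite.exists_notMem_finset
    ((P.image fun z => z.getD 0) ∪ (p - X * q).roots.toFinset)
  rw [Finset.mem_union, not_or] at hc
  have hcP : some c ∉ P := by
    intro h
    apply hc.1
    exact Finset.mem_image.mpr ⟨some c, h, rfl⟩
  have hcr : p.eval c - c * q.eval c ≠ 0 := by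
    intro h
    apply hc.2
    rw [Multiset.mem_toFinset, mem_roots hX, IsRoot.def, eval_sub, eval_mul, eval_X]
    exact h
  have hpq : (p - C c * q).natDegree ≤ d :=
    (natDegree_sub_le _ _).trans (max_le hp ((natDegree_C_mul_le _ _).trans hq))
  have hq'd : (pc d (p - C c * q) c).natDegree = d := by
    apply le_antisymm (pc_degree _ _ _)
    apply le_natDegree_of_ne_zero
    rw [pc_coeff d _ hpq, eval_sub, eval_mul, eval_C]
    exact hcr
  have hco' := pc_coprime d (by omega) p q hp hq hco hlead c
  have hinj : Set.InjOn (phc c) (P : Set (Option K)) := by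
    intro z hz z' hz' h
    rcases z with _ | x
    · rcases z' with _ | x'
      · rfl
      · exfalso
        have hx' : x' ≠ c := by
          rintro rfl
          exact hcP hz'
        have h1 : (0 : K) = (x' - c)⁻¹ := h
        exact inv_ne_zero (sub_ne_zero.mpr hx') h1.symm
    · rcases z' with _ | x'
      · exfalso
        have hx : x ≠ c := by
          rintro rfl
          exact hcP hz
        have h1 : (x - c)⁻¹ = (0 : K) := h
        exact inv_ne_zero (sub_ne_zero.mpr hx) h1
      · have h1 : (x - c)⁻¹ = (x' - c)⁻¹ := h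
        have h2 := inv_injective h1
        have h3 : x = x' := sub_left_injective h2
        rw [h3]
  have hst : ∀ y ∈ P.image (phc c), (pc d (p - C c * q) c).eval y ≠ 0 ∧
      (pc d q c).eval y / (pc d (p - C c * q) c).eval y ∈ P.image (phc c) := by
    intro y hy
    obtain ⟨z, hz, rfl⟩ := Finset.mem_image.mp hy
    have hFz := hP z hz
    rcases z with _ | x
    · have hval : phc c (none : Option K) = 0 := rfl
      rw [hval, pc_eval_zero, pc_eval_zero, coeff_sub, coeff_C_mul]
      by_cases hqd : q.coeff d = 0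
      · have hpd : p.coeff d ≠ 0 := hlead.resolve_right (fun h => h hqd)
        rw [hqd, mul_zero, sub_zero, zero_div]
        rw [ratP1_none0 p q d hqd] at hFz
        exact ⟨hpd, Finset.mem_image.mpr ⟨none, hFz, rfl⟩⟩
      · rw [ratP1_none p q d hqd] at hFz
        have h1 : p.coeff d / q.coeff d ≠ c := by
          intro h
          rw [h] at hFz
          exact hcP hFz
        have h2 : p.coeff d - c * q.coeff d ≠ 0 := by
          intro h
          apply h1
          rw [div_eq_iff hqd]
          exact sub_eq_zero.mp h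
        refine ⟨h2, Finset.mem_image.mpr ⟨_, hFz, ?_⟩⟩
        show (p.coeff d / q.coeff d - c)⁻¹ = _
        rw [div_sub' hqd, inv_div, mul_comm (q.coeff d) c]
    · have hxc : x ≠ c := by
        rintro rfl
        exact hcP hz
      have h0 : x - c ≠ 0 := sub_ne_zero.mpr hxc
      have hval : phc c (some x) = (x - c)⁻¹ := rfl
      have e1 := pc_eval_inv d q hq c x hxc
      have e2 := pc_eval_inv d (p - C c * q) hpq c x hxc
      rw [eval_sub, eval_mul, eval_C] at e2
      rw [hval]
      have hpow : (x - c) ^ d ≠ 0 := pow_ne_zero _ h0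
      have hratio : (pc d q c).eval (x - c)⁻¹ / (pc d (p - C c * q) c).eval (x - c)⁻¹ =
          q.eval x / (p.eval x - c * q.eval x) := by
        have h9 : (pc d q c).eval (x - c)⁻¹ / (pc d (p - C c * q) c).eval (x - c)⁻¹ =
            ((x - c) ^ d * (pc d q c).eval (x - c)⁻¹) /
              ((x - c) ^ d * (pc d (p - C c * q) c).eval (x - c)⁻¹) :=
          (mul_div_mul_left _ _ hpow).symm
        rw [h9, e1, e2]
      rw [hratio]
      have hne' : p.eval x - c * q.eval x ≠ 0 →
          (pc d (p - C c * q) c).eval (x - c)⁻¹ ≠ 0 := by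
        intro h h'
        rw [h', mul_zero] at e2
        exact h e2.symm
      by_cases hqx : q.eval x = 0
      · have hpx : p.eval x ≠ 0 := by
          intro hpx
          obtain ⟨a, b, hab⟩ := hco
          have := congrArg (eval x) hab
          rw [eval_add, eval_mul, eval_mul, hpx, hqx, mul_zero, mul_zero, add_zero,
            eval_one] at this
          exact zero_ne_one this
        rw [ratP1_some0 p q d x hqx] at hFz
        refine ⟨hne' (by rw [hqx, mul_zero, sub_zero]; exact hpx),
          Finset.mem_image.mpr ⟨none, hFz, ?_⟩⟩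
        rw [hqx, zero_div]
        rfl
      · rw [ratP1_some p q d x hqx] at hFz
        have h1 : p.eval x / q.eval x ≠ c := by
          intro h
          rw [h] at hFz
          exact hcP hFz
        have h2 : p.eval x - c * q.eval x ≠ 0 := by
          intro h
          apply h1
          rw [div_eq_iff hqx]
          exact sub_eq_zero.mp h
        refine ⟨hne' h2, Finset.mem_image.mpr ⟨_, hFz, ?_⟩⟩
        show (p.eval x / q.eval x - c)⁻¹ = _
        rw [div_sub' hqx, inv_div, mul_comm (q.eval x) c]
  have h1 := hB (pc d q c) (pc d (p - C c * q) c) (pc_degree _ _ _) hq'd hco' (P.image (phc c)) hst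
    (fun h => hiso (conj_transfer d p q hp hq c h))
  rw [Finset.card_image_of_injOn hinj] at h1
  exact h1

/-- Uniform boundedness of preperiodic points. -/
theorem prePer_R [CharZero k] (Q : PlaceData k K) (d : ℕ) (hd : 2 ≤ d) : ∃ B : ℕ,
    ∀ (p q : Polynomial K), max p.natDegree q.natDegree = d → IsCoprime p q →
    ¬ ConjConst k p q d →
    {z : Option K | (Set.range fun m : ℕ => (ratP1 p q d)^[m] z).Finite}.encard ≤ (B : ℕ∞) := by
  classical
  obtain ⟨B, hB⟩ := card_stableP Q d hd
  refine ⟨B, fun p q hmax hco hiso => ?_⟩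
  by_contra hcon
  push Not at hcon
  obtain ⟨T, hTs, hT⟩ := Set.exists_subset_encard_eq (Order.add_one_le_of_lt hcon)
  have hTf : T.Finite := by
    apply Set.finite_of_encard_eq_coe (k := B + 1)
    rw [hT]
    norm_cast
  have h1 : (⋃ z ∈ T, Set.range fun m : ℕ => (ratP1 p q d)^[m] z).Finite :=
    hTf.biUnion fun z hz => hTs hz
  have h2 := hB p q hmax hco h1.toFinset (by
    intro z hz
    rw [Set.Finite.mem_toFinset, Set.mem_iUnion₂] at hz ⊢
    obtain ⟨w, hw, m, hm⟩ := hz
    refine ⟨w, hw, m + 1, ?_⟩
    simp only at hm ⊢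
    rw [Function.iterate_succ_apply', hm]) hiso
  have h3 : hTf.toFinset ⊆ h1.toFinset := by
    intro z hz
    rw [Set.Finite.mem_toFinset] at hz ⊢
    rw [Set.mem_iUnion₂]
    exact ⟨z, hz, 0, rfl⟩
  have h4 := Finset.card_le_card h3
  have h5 : (hTf.toFinset.card : ℕ∞) = B + 1 := by
    rw [← hT, hTf.encard_eq_coe_toFinset_card]
  have h6 : hTf.toFinset.card = B + 1 := by exact_mod_cast h5
  omega

/-- **Uniform boundedness for all rational maps over function fields of characteristic zero.** -/
theorem ubp_rational (k : Type u1) (K : Type u2) [Field k] [CharZero k] [Field K] [Algebra k K]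
    (hFG : (⊤ : IntermediateField k K).FG)
    (hx : ∃ x : K, Transcendental k x ∧ Algebra.IsAlgebraic (IntermediateField.adjoin k {x}) K)
    (d : ℕ) (hd : 2 ≤ d) : ∃ B : ℕ,
    ∀ p q : Polynomial K, IsCoprime p q → max p.natDegree q.natDegree = d →
    (¬ ∃ a b c e : K, a * e - b * c ≠ 0 ∧ ∃ u w : Polynomial K, (u ≠ 0 ∨ w ≠ 0) ∧
      u.natDegree ≤ d ∧ w.natDegree ≤ d ∧ (∀ n, IsAlgebraic k (u.coeff n)) ∧
      (∀ n, IsAlgebraic k (w.coeff n)) ∧
      (C a * p + C b * q) * ∑ i ∈ Finset.range (d + 1),
        C (w.coeff i) * (C a * X + C b) ^ i * (C c * X + C e) ^ (d - i) =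
      (C c * p + C e * q) * ∑ i ∈ Finset.range (d + 1),
        C (u.coeff i) * (C a * X + C b) ^ i * (C c * X + C e) ^ (d - i)) →
    {z : Option K | (Set.range fun m : ℕ => (ratP1 p q d)^[m] z).Finite}.encard ≤ (B : ℕ∞) := by
  obtain ⟨Q⟩ := exists_placeData_ff k K hFG hx
  have : CharZero (algebraicClosure k K) := charZero_of_injective_algebraMap
    (algebraMap k (algebraicClosure k K)).injective
  obtain ⟨B, hB⟩ := prePer_R Q d hd
  refine ⟨B, fun p q hco hmax hiso => hB p q hmax hco ?_⟩
  rintro ⟨a, b, c, e, hdet, u, w, hne, hu, hw, hid⟩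
  have hinj := (algebraMap (algebraicClosure k K) K).injective
  refine hiso ⟨a, b, c, e, hdet, u.map (algebraMap _ K), w.map (algebraMap _ K), ?_,
    natDegree_map_le.trans hu, natDegree_map_le.trans hw, fun n => ?_, fun n => ?_, ?_⟩
  · rcases hne with h | h
    · exact Or.inl ((Polynomial.map_ne_zero_iff hinj).mpr h)
    · exact Or.inr ((Polynomial.map_ne_zero_iff hinj).mpr h)
  · rw [coeff_map]
    exact mem_algebraicClosure_iff.mp (u.coeff n).2
  · rw [coeff_map]
    exact mem_algebraicClosure_iff.mp (w.coeff n).2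
  · unfold hc hev at hid
    simp only [coeff_map (f := (C : K →+* Polynomial K))] at hid
    exact hid

end Pool.Agent.W277.UH
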