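import Pool.Agent.W277.UH.L0
import Pool.Agent.W277.UH.H3

/-!
# The inequality at one place
-/

namespace Pool.Agent.W277.UH

open Pool.Agent.W277.UB Pool.Agent.W277.UG Finset

variable {k K : Type*} [Field k] [Field K] [Algebra k K] {Q : PlaceData k K} {v : Q.Pl}

/-- collision orders -/
noncomputable def oo (Q : PlaceData k K) (v : Q.Pl) (x : K → K) {n : ℕ} (z : Fin n → K)
    (i j : Fin n) : ℕ := if i = j then 0 else (Q.ord v (x (z i) - x (z j))).toNat

/-- the local parameter -/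
noncomputable def Az (Q : PlaceData k K) (v : Q.Pl) (a : K → ℝ) (μ lam : K) (τ : ℝ) (z : K) : ℝ :=
  a z + Q.ord v (lam / (z - μ)) + τ

lemma lc_inj {μ lam ν z z' : K} (hlam : lam ≠ 0) (hz : z ≠ μ) (hz' : z' ≠ μ) (hne : z ≠ z') :
    lc μ lam ν z ≠ lc μ lam ν z' := by
  intro h
  have h1 := lc_sub (lam := lam) (ν := ν) hz hz'
  rw [h, sub_self] at h1
  have h2 : lam * (z - z') / ((z - μ) * (z' - μ)) = 0 := by
    rw [← neg_eq_zero]
    exact h1.symm
  exact div_ne_zero (mul_ne_zero hlam (sub_ne_zero.mpr hne))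
    (mul_ne_zero (sub_ne_zero.mpr hz) (sub_ne_zero.mpr hz')) h2

lemma ord_lc_sub {μ lam ν z z' : K} (hlam : lam ≠ 0) (hz : z ≠ μ) (hz' : z' ≠ μ) (hne : z ≠ z') :
    Q.ord v (lc μ lam ν z - lc μ lam ν z') = Q.ord v (z - z') - Q.ord v lam +
      Q.ord v (lam / (z - μ)) + Q.ord v (lam / (z' - μ)) := by
  have h1 := sub_ne_zero.mpr hz
  have h2 := sub_ne_zero.mpr hz'
  have h3 := sub_ne_zero.mpr hne
  rw [lc_sub hz hz', PlaceData.ord_neg (div_ne_zero (mul_ne_zero hlam h3) (mul_ne_zero h1 h2)),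
    PlaceData.ord_div (mul_ne_zero hlam h3) (mul_ne_zero h1 h2), Q.ord_mul v _ _ hlam h3,
    Q.ord_mul v _ _ h1 h2, PlaceData.ord_div hlam h1, PlaceData.ord_div hlam h2]
  ring

lemma oo_ord {μ lam ν : K} (hlam : lam ≠ 0) {n : ℕ} (z : Fin n → K) (hz : Function.Injective z)
    (hzμ : ∀ i, z i ≠ μ ∧ Q.G v 0 (lc μ lam ν (z i))) (i j : Fin n) (hij : i ≠ j) :
    (oo Q v (lc μ lam ν) z i j : ℤ) = Q.ord v (lc μ lam ν (z i) - lc μ lam ν (z j)) := by
  unfold oo
  rw [if_neg hij]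
  apply Int.toNat_of_nonneg
  have h1 := lc_inj (ν := ν) hlam (hzμ i).1 (hzμ j).1 fun h => hij (hz h)
  exact PlaceData.G_sub (hzμ i).2 (hzμ j).2 (sub_ne_zero.mpr h1)

theorem place [DecidableEq K] (m : ℕ) (hm : 0 < m) (z : Fin (2 * m) → K)
    (hz : Function.Injective z) (b : Fin (2 * m)) (μ lam ν : K) (hlam : lam ≠ 0)
    (hzμ : ∀ i, z i ≠ μ ∧ Q.G v 0 (lc μ lam ν (z i))) (a : K → ℝ) (τ ρ : ℝ)
    (hdet : cdet Q m z b ≠ 0) (T : ℕ) :
    (∑ i, ∑ j, (if i = j then 0 else GG Q v a ρ (z i) (z j))) +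
      ∑ i : Fin (2 * m), ((((Finset.univ.filter fun j : Fin (2 * m) => j.1 < i.1).sup
        (oo Q v (lc μ lam ν) z i) : ℕ) : ℝ) - 2 * Az Q v a μ lam τ (z i) +
        (ρ + Q.ord v lam + 2 * τ)) -
      4 * (LL (fun i : Fin (2 * m) => i.1) (oo Q v (lc μ lam ν) z) T : ℝ) -
      4 * Q.loss v * ((m : ℝ) - 1) ≤
    4 * (Q.ord v (cdet Q m z b) : ℝ) - 4 * m * ∑ i, a (z i) + 4 * (m : ℝ) ^ 2 * ρ := by
  classical
  obtain ⟨ε, hε, hcov⟩ := cov Q m z b μ lam ν hlam fun i => (hzμ i).1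
  set o := oo Q v (lc μ lam ν) z with ho
  set dt := (mat (fun i => ν + lam / (z i - μ)) (fun i => Q.D (ν + lam / (z i - μ))) (mu m)).det
    with hdt
  have hε0 : ε ≠ 0 := by
    rcases hε with h | h <;> rw [h] <;> simp
  have hεo : Q.ord v ε = 0 := by
    rcases hε with h | h <;> rw [h]
    · exact PlaceData.ord_one
    · rw [PlaceData.ord_neg one_ne_zero, PlaceData.ord_one]
  have hl0 : ∀ i, lam / (z i - μ) ≠ 0 := fun i =>
    div_ne_zero hlam (sub_ne_zero.mpr (hzμ i).1)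
  have hp0 : (∏ i, (lam / (z i - μ))⁻¹ ^ m) ≠ 0 :=
    Finset.prod_ne_zero_iff.mpr fun i _ => pow_ne_zero _ (inv_ne_zero (hl0 i))
  have hdt0 : dt ≠ 0 := by
    intro h
    rw [h, mul_zero] at hcov
    exact hdet hcov
  have hpo : ∀ s : Finset (Fin (2 * m)), Q.ord v (∏ i ∈ s, (lam / (z i - μ))⁻¹ ^ m) =
      -(m : ℤ) * ∑ i ∈ s, Q.ord v (lam / (z i - μ)) := by
    intro s
    induction s using Finset.induction_on with
    | empty => simp [PlaceData.ord_one]
    | insert i s hi ih =>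
      rw [Finset.prod_insert hi, Finset.sum_insert hi,
        Q.ord_mul v _ _ (pow_ne_zero _ (inv_ne_zero (hl0 i)))
          (Finset.prod_ne_zero_iff.mpr fun i _ => pow_ne_zero _ (inv_ne_zero (hl0 i))), ih,
        PlaceData.ord_pow (inv_ne_zero (hl0 i)), PlaceData.ord_inv (hl0 i)]
      ring
  have hcd : Q.ord v (cdet Q m z b) = (m : ℤ) ^ 2 * Q.ord v lam -
      m * ∑ i, Q.ord v (lam / (z i - μ)) + Q.ord v dt := by
    rw [hcov, Q.ord_mul v _ _ (mul_ne_zero (mul_ne_zero hε0 (pow_ne_zero _ hlam)) hp0) hdt0,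
      Q.ord_mul v _ _ (mul_ne_zero hε0 (pow_ne_zero _ hlam)) hp0,
      Q.ord_mul v _ _ hε0 (pow_ne_zero _ hlam), hεo, hpo, PlaceData.ord_pow hlam]
    push_cast
    ring
  have hcf : Cf Q v (fun i => ν + lam / (z i - μ)) o := by
    constructor
    · intro i
      simp [ho, oo]
    · intro i j hij
      exact lc_inj (ν := ν) hlam (hzμ i).1 (hzμ j).1 fun h => hij (hz h)
    · intro i j hij
      exact (oo_ord hlam z hz hzμ i j hij).symm
    · intro i
      exact (hzμ i).2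
  have hmain := det_ref (Q := Q) (v := v) (2 * m) (Fin (2 * m)) (by simp) _ o
    (fun i : Fin (2 * m) => i.1) T Fin.val_injective hcf (mu m) (mu_inj m) hdt0
  rw [mu_BB m hm] at hmain
  have hmain' : (EE o : ℝ) + MM (fun i : Fin (2 * m) => i.1) o -
      4 * (LL (fun i : Fin (2 * m) => i.1) o T : ℝ) - 4 * Q.loss v * ((m : ℝ) - 1) ≤
      4 * (Q.ord v dt : ℝ) := by exact_mod_cast hmain
  have hEE : (EE o : ℝ) = ∑ i, ∑ j, if i = j then (0 : ℝ) else
      (GG Q v a ρ (z i) (z j) + Az Q v a μ lam τ (z i) + Az Q v a μ lam τ (z j) -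
        (ρ + Q.ord v lam + 2 * τ)) := by
    unfold EE
    push_cast
    apply Finset.sum_congr rfl
    intro i _
    apply Finset.sum_congr rfl
    intro j _
    split_ifs with hij
    · simp [ho, oo, hij]
    · have h1 := oo_ord hlam z hz hzμ i j hij
      rw [ord_lc_sub hlam (hzμ i).1 (hzμ j).1 fun h => hij (hz h)] at h1
      have h2 : ((o i j : ℕ) : ℝ) = (((Q.ord v (z i - z j) - Q.ord v lam +
        Q.ord v (lam / (z i - μ)) + Q.ord v (lam / (z j - μ)) : ℤ)) : ℝ) := by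
        exact_mod_cast h1
      rw [h2]
      unfold GG Az
      push_cast
      ring
  have hsplit : (∑ i : Fin (2 * m), ∑ j : Fin (2 * m), if i = j then (0 : ℝ) else
      (GG Q v a ρ (z i) (z j) + Az Q v a μ lam τ (z i) + Az Q v a μ lam τ (z j) -
        (ρ + Q.ord v lam + 2 * τ))) =
      (∑ i, ∑ j, (if i = j then 0 else GG Q v a ρ (z i) (z j))) +
      2 * (2 * m - 1) * ∑ i, Az Q v a μ lam τ (z i) -
      2 * m * (2 * m - 1) * (ρ + Q.ord v lam + 2 * τ) := by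
    have h1 : ∀ i j : Fin (2 * m), (if i = j then (0 : ℝ) else
      (GG Q v a ρ (z i) (z j) + Az Q v a μ lam τ (z i) + Az Q v a μ lam τ (z j) -
        (ρ + Q.ord v lam + 2 * τ))) = (if i = j then 0 else GG Q v a ρ (z i) (z j)) +
        ((Az Q v a μ lam τ (z i) + Az Q v a μ lam τ (z j) - (ρ + Q.ord v lam + 2 * τ)) -
        if i = j then (Az Q v a μ lam τ (z i) + Az Q v a μ lam τ (z i) -
          (ρ + Q.ord v lam + 2 * τ)) else 0) := by
      intro i j
      split_ifs with h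
      · rw [h]
        ring
      · ring
    simp_rw [h1]
    simp only [Finset.sum_add_distrib, Finset.sum_sub_distrib, Finset.sum_const,
      Finset.sum_ite_eq, Finset.mem_univ, if_true, Finset.card_univ, Fintype.card_fin,
      nsmul_eq_mul]
    rw [← Finset.mul_sum]
    push_cast
    ring
  have hMM : ∑ i : Fin (2 * m), ((((Finset.univ.filter fun j : Fin (2 * m) => j.1 < i.1).sup
        (o i) : ℕ) : ℝ) - 2 * Az Q v a μ lam τ (z i) + (ρ + Q.ord v lam + 2 * τ)) =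
      (MM (fun i : Fin (2 * m) => i.1) o : ℝ) - 2 * ∑ i, Az Q v a μ lam τ (z i) +
        2 * m * (ρ + Q.ord v lam + 2 * τ) := by
    unfold MM
    simp only [Finset.sum_add_distrib, Finset.sum_sub_distrib, Finset.sum_const,
      Finset.card_univ, Fintype.card_fin, nsmul_eq_mul]
    rw [← Finset.mul_sum]
    push_cast
    ring
  have hsumA : ∑ i, Az Q v a μ lam τ (z i) = ∑ i, a (z i) +
      ((∑ i, Q.ord v (lam / (z i - μ)) : ℤ) : ℝ) + 2 * m * τ := by
    unfold Az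
    rw [Finset.sum_add_distrib, Finset.sum_add_distrib]
    push_cast
    simp only [Finset.sum_const, Finset.card_univ, Fintype.card_fin, nsmul_eq_mul]
    push_cast
    ring
  rw [hMM]
  rw [hEE, hsplit] at hmain'
  have hcd' : (Q.ord v (cdet Q m z b) : ℝ) = (m : ℝ) ^ 2 * Q.ord v lam -
      m * ((∑ i, Q.ord v (lam / (z i - μ)) : ℤ) : ℝ) + Q.ord v dt := by
    rw [hcd]
    push_cast
    ring
  rw [hcd']
  have e1 : ((∑ i, Q.ord v (lam / (z i - μ)) : ℤ) : ℝ) = ∑ i, Az Q v a μ lam τ (z i) -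
    ∑ i, a (z i) - 2 * m * τ := by linarith
  rw [e1]
  nlinarith [hmain']

end Pool.Agent.W277.UH
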