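import Pool.Agent.W277.UH.H7

/-!
# The global bound
-/

namespace Pool.Agent.W277.UH

open Pool.Agent.W277.UB Pool.Agent.W277.UG Finset Polynomial

universe u

/-- the parameters -/
lemma params (κ δ : ℝ) (hκ : 0 < κ) (hδ : 0 < δ) (T q₁ d : ℕ) (hd : 2 ≤ d) :
    ∃ (θ : ℕ → ℝ) (mm nn : ℕ → ℕ), Antitone θ ∧ (∀ i, 0 < θ i) ∧
      (∀ i, 1 ≤ mm i ∧ 16 * T / (κ * θ i) ≤ mm i ∧ 12 * q₁ / κ ≤ mm i) ∧
      ∀ i, 4 / (d : ℝ) ^ (nn i) + T * θ (i + 1) ≤ κ * δ ^ 2 / (8192 * (mm i : ℝ) ^ 2) := by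
  have hdR : (2 : ℝ) ≤ d := by exact_mod_cast hd
  obtain ⟨mf, hmf⟩ : ∃ mf : ℝ → ℕ, ∀ x, 1 ≤ mf x ∧ 16 * T / (κ * x) ≤ mf x ∧
      12 * q₁ / κ ≤ mf x := by
    refine ⟨fun x => ⌈16 * T / (κ * x)⌉₊ + ⌈12 * q₁ / κ⌉₊ + 1, fun x => ⟨Nat.le_add_left 1 _, ?_, ?_⟩⟩
    · push_cast
      have h1 := Nat.le_ceil (16 * T / (κ * x))
      have h2 : (0 : ℝ) ≤ (⌈12 * q₁ / κ⌉₊ : ℝ) := Nat.cast_nonneg _
      linarith
    · push_cast
      have h1 := Nat.le_ceil (12 * q₁ / κ)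
      have h2 : (0 : ℝ) ≤ (⌈16 * T / (κ * x)⌉₊ : ℝ) := Nat.cast_nonneg _
      linarith
  obtain ⟨θ, hθ0, hθs⟩ : ∃ θ : ℕ → ℝ, θ 0 = 1 ∧ ∀ i, θ (i + 1) =
      min (θ i) (κ * δ ^ 2 / (16384 * (mf (θ i) : ℝ) ^ 2 * (T + 1))) :=
    ⟨fun i => Nat.rec 1 (fun _ x => min x (κ * δ ^ 2 / (16384 * (mf x : ℝ) ^ 2 * (T + 1)))) i,
      rfl, fun i => rfl⟩
  have hmpos : ∀ x, (0 : ℝ) < mf x := fun x => by
    have := (hmf x).1
    exact_mod_cast (by omega : 0 < mf x)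
  have hθp : ∀ i, 0 < θ i := by
    intro i
    induction i with
    | zero => rw [hθ0]; norm_num
    | succ i ih =>
      rw [hθs]
      apply lt_min ih
      have := hmpos (θ i)
      positivity
  have hex : ∀ i, ∃ nn : ℕ, 4 / (d : ℝ) ^ nn ≤ κ * δ ^ 2 / (16384 * (mf (θ i) : ℝ) ^ 2) := by
    intro i
    have hpos : 0 < κ * δ ^ 2 / (16384 * (mf (θ i) : ℝ) ^ 2) := by
      have := hmpos (θ i)
      positivity
    obtain ⟨nn, hnn⟩ := pow_unbounded_of_one_lt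
      (4 / (κ * δ ^ 2 / (16384 * (mf (θ i) : ℝ) ^ 2))) (by linarith : (1 : ℝ) < d)
    refine ⟨nn, ?_⟩
    rw [div_lt_iff₀ hpos] at hnn
    rw [div_le_iff₀ (by positivity)]
    linarith
  choose nn hnn using hex
  refine ⟨θ, fun i => mf (θ i), nn, ?_, hθp, fun i => hmf (θ i), ?_⟩
  · apply antitone_nat_of_succ_le
    intro i
    rw [hθs]
    exact min_le_left _ _
  · intro i
    have h1 := hnn i
    have h2 : T * θ (i + 1) ≤ κ * δ ^ 2 / (16384 * (mf (θ i) : ℝ) ^ 2) := by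
      have h3 : θ (i + 1) ≤ κ * δ ^ 2 / (16384 * (mf (θ i) : ℝ) ^ 2 * (T + 1)) := by
        rw [hθs]
        exact min_le_right _ _
      have hT0 : (0 : ℝ) ≤ T := Nat.cast_nonneg T
      have hm0 := hmpos (θ i)
      calc T * θ (i + 1) ≤ (T + 1) * θ (i + 1) := by
            have := (hθp (i + 1)).le
            nlinarith
        _ ≤ (T + 1) * (κ * δ ^ 2 / (16384 * (mf (θ i) : ℝ) ^ 2 * (T + 1))) :=
            mul_le_mul_of_nonneg_left h3 (by linarith)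
        _ = κ * δ ^ 2 / (16384 * (mf (θ i) : ℝ) ^ 2) := by
            field_simp
    have h4 : κ * δ ^ 2 / (8192 * (mf (θ i) : ℝ) ^ 2) =
        κ * δ ^ 2 / (16384 * (mf (θ i) : ℝ) ^ 2) + κ * δ ^ 2 / (16384 * (mf (θ i) : ℝ) ^ 2) := by
      have hm0 := hmpos (θ i)
      field_simp
      norm_num
    rw [h4]
    linarith

variable {k : Type*} {K : Type u} [Field k] [Field K] [Algebra k K] [DecidableEq K]

theorem global_bound (Q : PlaceData k K) (d : ℕ) (hd : 2 ≤ d) : ∃ N₀ M : ℕ,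
    ∀ (S : Finset Q.Pl) (P : Finset K) (a : Q.Pl → K → ℝ) (ρ : Q.Pl → ℝ)
    (L : ∀ v, LD Q v d P (a v) (ρ v)), N₀ ≤ P.card →
    (∀ v, v ∉ S → ∀ x ∈ P, ∀ y ∈ P, x ≠ y → Q.ord v (x - y) = 0) →
    (∀ v, v ∉ S → (∀ x ∈ P, a v x = 0) ∧ ρ v = 0) → Q.lossS ⊆ S →
    (∀ x ∈ P, ∑ v ∈ S, (Q.wt v : ℝ) * a v x = 0) →
    (∑ v ∈ S, (Q.wt v : ℝ) * ρ v = 0) →
    (∀ m, 1 ≤ m → m ≤ M → ∀ b ∈ P, ∀ F : (Fin (2 * m) → K) →ₗ[K] K, F ≠ 0 →
      ∃ C ⊆ P, 1 / (2 * ((d : ℝ) + 1)) * P.card ≤ (C.card : ℝ) ∧ ∀ z ∈ C, F (Phi Q m b z) ≠ 0) →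
    ∑ v ∈ S, (Q.wt v : ℝ) * (L v).R ≤ 48 * (d : ℝ) * (d + 1) * Q.lossT := by
  classical
  have hdR : (2 : ℝ) ≤ d := by exact_mod_cast hd
  obtain ⟨κ, hκ⟩ : ∃ κ : ℝ, κ = 1 / (8 * (d : ℝ) * (d + 1)) := ⟨_, rfl⟩
  obtain ⟨δ, hδ⟩ : ∃ δ : ℝ, δ = 1 / (4 * ((d : ℝ) + 1)) := ⟨_, rfl⟩
  have hκ0 : 0 < κ := by rw [hκ]; positivity
  have hδ0 : 0 < δ := by rw [hδ]; positivity
  obtain ⟨R₀, hR₀⟩ : ∃ R₀ : ℕ, 32 / κ ≤ R₀ := ⟨_, Nat.le_ceil _⟩
  obtain ⟨T, hT⟩ : ∃ T : ℕ, T = 8 + 3 * R₀ := ⟨_, rfl⟩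
  obtain ⟨θ, mm, nn, hθa, hθ0, hmm, hcost⟩ := params κ δ hκ0 hδ0 T (q₀ d) d hd
  obtain ⟨Sc, hSc⟩ : ∃ Sc : ℕ, 128 * ((d : ℝ) + 1) * T / κ ≤ Sc ∧ 1 ≤ Sc := by
    refine ⟨⌈128 * ((d : ℝ) + 1) * T / κ⌉₊ + 1, ?_, by omega⟩
    push_cast
    have := Nat.le_ceil (128 * ((d : ℝ) + 1) * T / κ)
    linarith
  obtain ⟨hSc1, hSc2⟩ := hSc
  refine ⟨q₀ d + 1 + ∑ i ∈ Finset.range Sc, d ^ (2 * nn i), ∑ i ∈ Finset.range Sc, mm i, ?_⟩
  intro S P a ρ L hN hS1 hS2 hS3 hwa hwρ hind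
  have hq : q₀ d < P.card := by omega
  set N : ℝ := (P.card : ℝ) with hNdef
  have hN0 : 0 < N := by
    rw [hNdef]
    have : 0 < P.card := by omega
    exact_mod_cast this
  have hwt : ∀ v, (0 : ℝ) ≤ Q.wt v := fun v => by exact_mod_cast Q.wt_nonneg v
  set H : ℝ := ∑ v ∈ S, (Q.wt v : ℝ) * (L v).R with hH
  have hH0 : 0 ≤ H := Finset.sum_nonneg fun v _ => mul_nonneg (hwt v) (Nat.cast_nonneg _)
  have hκ6 : 6 / κ = 48 * (d : ℝ) * (d + 1) := by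
    rw [hκ]
    field_simp
    norm_num
  -- the average of the medium costs
  have hmv : ∀ v x, ∑ i ∈ Finset.range Sc, (mv L R₀ T (θ i * N) (θ (i + 1) * N) v x : ℝ) ≤
      T * (L v).R := by
    intro v x
    have hRn : (0 : ℝ) ≤ (L v).R := Nat.cast_nonneg _
    by_cases hR : 1 ≤ (L v).R ∧ (L v).R ≤ R₀
    · have h1 := med_sum P (L v).o T (fun i => θ i * N)
        (fun i j hij => mul_le_mul_of_nonneg_right (hθa hij) hN0.le) Sc x
      have h2 : ∑ i ∈ Finset.range Sc, (mv L R₀ T (θ i * N) (θ (i + 1) * N) v x : ℝ) =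
          ∑ i ∈ Finset.range Sc, (med P (L v).o T (θ i * N) (θ (i + 1) * N) x : ℝ) := by
        apply Finset.sum_congr rfl
        intro i _
        unfold mv
        rw [if_pos hR]
      rw [h2]
      refine h1.trans ?_
      have h3 : (1 : ℝ) ≤ (L v).R := by exact_mod_cast hR.1
      exact le_mul_of_one_le_right (Nat.cast_nonneg _) h3
    · have h2 : ∑ i ∈ Finset.range Sc, (mv L R₀ T (θ i * N) (θ (i + 1) * N) v x : ℝ) = 0 := by
        apply Finset.sum_eq_zero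
        intro i _
        unfold mv
        rw [if_neg hR]
        simp
      rw [h2]
      positivity
  have htot : ∑ i ∈ Finset.range Sc, ∑ x ∈ P, ∑ v ∈ S, (Q.wt v : ℝ) *
      (mv L R₀ T (θ i * N) (θ (i + 1) * N) v x : ℝ) ≤
      ∑ _i ∈ Finset.range Sc, (T * H * N / Sc) := by
    rw [Finset.sum_const, Finset.card_range, nsmul_eq_mul]
    have hScp : (0 : ℝ) < Sc := by exact_mod_cast hSc2
    rw [mul_div_cancel₀ _ hScp.ne']
    rw [Finset.sum_comm]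
    calc _ ≤ ∑ x ∈ P, T * H := by
          apply Finset.sum_le_sum
          intro x _
          rw [Finset.sum_comm]
          rw [hH, Finset.mul_sum]
          apply Finset.sum_le_sum
          intro v _
          rw [← Finset.mul_sum]
          have := mul_le_mul_of_nonneg_left (hmv v x) (hwt v)
          refine this.trans (le_of_eq ?_)
          ring
      _ = T * H * N := by
          rw [Finset.sum_const, nsmul_eq_mul, hNdef]
          ring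
  obtain ⟨i, hi, hile⟩ := Finset.exists_le_of_sum_le
    (Finset.nonempty_range_iff.mpr (by omega)) htot
  have hi' := Finset.mem_range.mp hi
  have hmed : ((P.filter fun x => κ / 32 * H < ∑ v ∈ S, (Q.wt v : ℝ) *
      (mv L R₀ T (θ i * P.card) (θ (i + 1) * P.card) v x)).card : ℝ) ≤
      P.card / (4 * ((d : ℝ) + 1)) := by
    apply markov P _ (fun x => Finset.sum_nonneg fun v _ =>
      mul_nonneg (hwt v) (Nat.cast_nonneg _)) (κ / 32 * H) _ (by positivity) (by positivity)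
    refine hile.trans ?_
    have hScp : (0 : ℝ) < Sc := by exact_mod_cast hSc2
    rw [div_le_iff₀ hScp]
    rw [div_le_iff₀ hκ0] at hSc1
    have h1 : κ / 32 * H * (↑P.card / (4 * ((d : ℝ) + 1))) * Sc =
        (Sc * κ) * (H * N / (128 * ((d : ℝ) + 1))) := by
      rw [hNdef]
      field_simp
      ring
    rw [h1]
    calc (T : ℝ) * H * N = (128 * ((d : ℝ) + 1) * T) * (H * N / (128 * ((d : ℝ) + 1))) := by
          field_simp
      _ ≤ _ := mul_le_mul_of_nonneg_right hSc1 (by positivity)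
  rw [← hκ6]
  have hmi := hmm i
  have hMi : mm i ≤ ∑ i ∈ Finset.range Sc, mm i :=
    Finset.single_le_sum (f := mm) (fun _ _ => Nat.zero_le _) hi
  have hNi : d ^ (2 * nn i) ≤ ∑ i ∈ Finset.range Sc, d ^ (2 * nn i) :=
    Finset.single_le_sum (f := fun i => d ^ (2 * nn i)) (fun _ _ => Nat.zero_le _) hi
  exact scale_main Q S d hd P a ρ L hq hS1 hS2 hS3 hwa hwρ κ δ hκ hδ (θ i) (θ (i + 1)) (hθ0 i)
    (hθ0 (i + 1)).le (mm i) (nn i) T R₀ hmi.1 hR₀ (by omega) hmi.2.1 hmi.2.2 (by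
      have : d ^ (2 * nn i) ≤ P.card := by omega
      exact_mod_cast this) (hcost i) (hind (mm i) hmi.1 hMi) H hH hmed

end Pool.Agent.W277.UH
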