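import Pool.Agent.W277.UH.L2

/-!
# Homogeneous maps attached to rational functions
-/

namespace Pool.Agent.W277.UH

open Pool.Agent.W277.UG Finset Polynomial

variable {Ω : Type*} [NormedField Ω]

/-- homogeneous evaluation -/
def hev {R : Type*} [CommSemiring R] (d : ℕ) (p : Polynomial R) (X : R × R) : R :=
  ∑ i ∈ Finset.range (d + 1), p.coeff i * X.1 ^ i * X.2 ^ (d - i)

lemma hev_smul {R : Type*} [CommSemiring R] (d : ℕ) (p : Polynomial R) (t : R) (X : R × R) :
    hev d p (t • X) = t ^ d * hev d p X := by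
  unfold hev
  rw [Finset.mul_sum]
  apply Finset.sum_congr rfl
  intro i hi
  rw [Finset.mem_range] at hi
  simp only [Prod.smul_fst, Prod.smul_snd, smul_eq_mul]
  have : t ^ d = t ^ i * t ^ (d - i) := by rw [← pow_add]; congr 1; omega
  rw [this]
  ring

lemma hev_one {R : Type*} [CommSemiring R] (d : ℕ) (p : Polynomial R) (hp : p.natDegree ≤ d)
    (x : R) : hev d p (x, 1) = p.eval x := by
  unfold hev
  rw [Polynomial.eval_eq_sum_range' (n := d + 1) (by omega)]
  simp

lemma hev_zero {R : Type*} [CommSemiring R] (d : ℕ) (p : Polynomial R) (x : R) :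
    hev d p (x, 0) = p.coeff d * x ^ d := by
  unfold hev
  rw [Finset.sum_eq_single d]
  · simp
  · intro i hi hne
    rw [Finset.mem_range] at hi
    have : d - i ≠ 0 := by omega
    simp [this]
  · intro h
    exact absurd (Finset.mem_range.mpr (Nat.lt_succ_self d)) h

lemma hev_eval {F : Type*} [Field F] (d : ℕ) (p : Polynomial F) (hp : p.natDegree ≤ d) (X : F × F)
    (h : X.2 ≠ 0) : hev d p X = X.2 ^ d * p.eval (X.1 / X.2) := by
  have h1 : X = X.2 • ((X.1 / X.2, 1) : F × F) := by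
    ext
    · simp only [Prod.smul_fst, smul_eq_mul]
      field_simp
    · simp
  conv_lhs => rw [h1]
  rw [hev_smul, hev_one d p hp]

/-- factorisation of a form -/
lemma hev_factor [IsAlgClosed Ω] (d : ℕ) (h : Polynomial Ω) (h0 : h ≠ 0) (hd : h.natDegree ≤ d) :
    ∃ (c : Ω) (η : Fin d → Ω × Ω), c ≠ 0 ∧ (∀ l, η l ≠ 0) ∧
      ∀ X, hev d h X = c * ∏ l, wd X (η l) := by
  obtain ⟨ζ, hζ⟩ := exists_root_family h
  obtain ⟨e, he⟩ : ∃ e, d = h.natDegree + e := ⟨d - h.natDegree, by omega⟩
  subst he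
  refine ⟨h.leadingCoeff * (-1) ^ e,
    Fin.addCases (fun l => ((ζ l, 1) : Ω × Ω)) (fun _ => ((1, 0) : Ω × Ω)),
    mul_ne_zero (Polynomial.leadingCoeff_ne_zero.mpr h0) (pow_ne_zero _ (by simp)), ?_, ?_⟩
  · intro l
    refine Fin.addCases (fun l => ?_) (fun l => ?_) l
    · simp only [Fin.addCases_left]
      intro h
      have := congrArg Prod.snd h
      simp at this
    · simp only [Fin.addCases_right]
      intro h
      have := congrArg Prod.fst h
      simp at this
  · intro X
    rw [Fin.prod_univ_add]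
    simp only [Fin.addCases_left, Fin.addCases_right, Finset.prod_const, Finset.card_univ,
      Fintype.card_fin]
    have e1 : wd X ((1, 0) : Ω × Ω) = -X.2 := by unfold wd; simp
    have e2 : ∀ l, wd X ((ζ l, 1) : Ω × Ω) = X.1 - ζ l * X.2 := by
      intro l
      unfold wd
      ring
    rw [e1]
    simp_rw [e2]
    by_cases hX : X.2 = 0
    · have hX' : X = (X.1, 0) := Prod.ext rfl hX
      rw [hX', hev_zero]
      simp only [mul_zero, sub_zero, Finset.prod_const, Finset.card_univ, Fintype.card_fin,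
        neg_zero]
      rcases Nat.eq_zero_or_pos e with he | he
      · subst he
        simp only [add_zero, pow_zero, mul_one]
        rfl
      · rw [Polynomial.coeff_eq_zero_of_natDegree_lt (by omega), zero_pow (by omega)]
        ring
    · rw [hev_eval _ _ (by omega) X hX, hζ]
      have e3 : ∏ l, (X.1 / X.2 - ζ l) * X.2 = ∏ l, (X.1 - ζ l * X.2) := by
        apply Finset.prod_congr rfl
        intro l _
        field_simp
      rw [Finset.prod_mul_distrib, Finset.prod_const, Finset.card_univ, Fintype.card_fin] at e3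
      rw [← e3, pow_add, neg_pow X.2 e]
      have e4 : ((-1 : Ω) ^ e) * (-1) ^ e = 1 := by rw [← mul_pow]; simp
      linear_combination (-(h.leadingCoeff * (∏ l, (X.1 / X.2 - ζ l)) * X.2 ^ h.natDegree * X.2 ^ e)) * e4

/-- the base map -/
def bF (d : ℕ) (p q : Polynomial Ω) (X : Ω × Ω) : Ω × Ω := (hev d p X, hev d q X)

lemma bF_hom (d : ℕ) (p q : Polynomial Ω) (t : Ω) (X : Ω × Ω) :
    bF d p q (t • X) = t ^ d • bF d p q X := by
  unfold bF
  rw [hev_smul, hev_smul]
  rfl

lemma bF_nz (d : ℕ) (p q : Polynomial Ω) (hp : p.natDegree ≤ d) (hq : q.natDegree = d)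
    (hd : 1 ≤ d) (hco : IsCoprime p q) (X : Ω × Ω) (hX : X ≠ 0) : bF d p q X ≠ 0 := by
  intro h
  have h1 : hev d p X = 0 := congrArg Prod.fst h
  have h2 : hev d q X = 0 := congrArg Prod.snd h
  by_cases hX2 : X.2 = 0
  · have hX' : X = (X.1, 0) := Prod.ext rfl hX2
    rw [hX', hev_zero] at h2
    have hq0 : q.coeff d ≠ 0 := by
      rw [← hq]
      apply Polynomial.leadingCoeff_ne_zero.mpr
      rintro rfl
      simp at hq
      omega
    have h3 := (mul_eq_zero.mp h2).resolve_left hq0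
    have h4 : X.1 = 0 := by
      by_contra h5
      exact pow_ne_zero _ h5 h3
    exact hX (Prod.ext h4 hX2)
  · rw [hev_eval d p hp X hX2] at h1
    rw [hev_eval d q hq.le X hX2] at h2
    have e1 := (mul_eq_zero.mp h1).resolve_left (pow_ne_zero _ hX2)
    have e2 := (mul_eq_zero.mp h2).resolve_left (pow_ne_zero _ hX2)
    obtain ⟨a, b, hab⟩ := hco
    have := congrArg (Polynomial.eval (X.1 / X.2)) hab
    simp [e1, e2] at this

/-- raw roots of the base map -/
lemma bF_roots [IsAlgClosed Ω] (d : ℕ) (p q : Polynomial Ω) (hp : p.natDegree ≤ d)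
    (hq : q.natDegree = d) (hd : 1 ≤ d) (hco : IsCoprime p q) (Y : Ω × Ω) (hY : Y ≠ 0) :
    ∃ (c : Ω) (η : Fin d → Ω × Ω), c ≠ 0 ∧ (∀ l, ‖η l‖ = 1) ∧
      (∀ X, wd (bF d p q X) Y = c * ∏ l, wd X (η l)) := by
  have h0 : C Y.2 * p - C Y.1 * q ≠ 0 := by
    intro h
    by_cases hY2 : Y.2 = 0
    · have hY1 : Y.1 ≠ 0 := fun h1 => hY (Prod.ext h1 hY2)
      rw [hY2] at h
      simp only [map_zero, zero_mul, zero_sub, neg_eq_zero, mul_eq_zero, C_eq_zero] at h
      rcases h with h | h
      · exact hY1 h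
      · rw [h] at hq
        simp at hq
        omega
    · have h1 : p = C (Y.1 / Y.2) * q := by
        have h2 : C Y.2 * p = C Y.1 * q := sub_eq_zero.mp h
        have h3 : C (Y.2⁻¹) * (C Y.2 * p) = C (Y.2⁻¹) * (C Y.1 * q) := by rw [h2]
        rw [← mul_assoc, ← C_mul, inv_mul_cancel₀ hY2, C_1, one_mul, ← mul_assoc, ← C_mul] at h3
        rw [h3]
        congr 2
        rw [div_eq_inv_mul]
      rw [h1] at hco
      have h4 : IsUnit q := by
        obtain ⟨a, b, hab⟩ := hco
        apply IsUnit.of_mul_eq_one (a * C (Y.1 / Y.2) + b)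
        rw [← hab]
        ring
      have h5 := Polynomial.natDegree_eq_zero_of_isUnit h4
      omega
  have hdeg : (C Y.2 * p - C Y.1 * q).natDegree ≤ d := by
    refine (Polynomial.natDegree_sub_le _ _).trans (max_le ?_ ?_)
    · exact (Polynomial.natDegree_C_mul_le _ _).trans hp
    · exact (Polynomial.natDegree_C_mul_le _ _).trans hq.le
  obtain ⟨c, η, hc, hη, h⟩ := hev_factor d _ h0 hdeg
  obtain ⟨c', η', h1, h2, h3, _⟩ := norm_roots (bF d p q) d (bF_hom d p q) Y c η hc hη (by
    intro X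
    rw [← h X]
    unfold wd bF hev
    simp only [coeff_sub, coeff_C_mul]
    rw [Finset.sum_mul, Finset.sum_mul, ← Finset.sum_sub_distrib]
    apply Finset.sum_congr rfl
    intro i _
    ring)
  exact ⟨c', η', h1, h2, h3⟩

/-- independence of the resultant -/
lemma res_indep (F : Ω × Ω → Ω × Ω) (d : ℕ) (Y Y' : Ω × Ω) (hY : ‖Y‖ = 1) (hY' : ‖Y'‖ = 1)
    (hw : wd Y Y' ≠ 0) (c c' : Ω) (η η' : Fin d → Ω × Ω)
    (h : ∀ X, wd (F X) Y = c * ∏ l, wd X (η l)) (h' : ∀ X, wd (F X) Y' = c' * ∏ l, wd X (η' l)) :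
    ‖c‖ ^ d * ∏ l, ‖F (η l)‖ = ‖c'‖ ^ d * ∏ l, ‖F (η' l)‖ := by
  have hYn : Y ≠ 0 := by rintro rfl; simp at hY
  have hYn' : Y' ≠ 0 := by rintro rfl; simp at hY'
  have key : ∀ (Y Y' : Ω × Ω), ‖Y‖ = 1 → Y ≠ 0 → ∀ (c c' : Ω) (η η' : Fin d → Ω × Ω),
      (∀ X, wd (F X) Y = c * ∏ l, wd X (η l)) → (∀ X, wd (F X) Y' = c' * ∏ l, wd X (η' l)) →
      ‖wd Y Y'‖ ^ d * (‖c‖ ^ d * ∏ l, ‖F (η l)‖) =
        ‖c‖ ^ d * ‖c'‖ ^ d * ∏ l, ∏ l', ‖wd (η l) (η' l')‖ := by
    intro Y Y' hY hYn c c' η η' h h'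
    have h1 : ∀ l, ‖F (η l)‖ * ‖wd Y Y'‖ = ‖c'‖ * ∏ l', ‖wd (η l) (η' l')‖ := by
      intro l
      obtain ⟨t, ht⟩ : ∃ t : Ω, F (η l) = t • Y := by
        rw [← wd_zero_iff hYn, h, Finset.prod_eq_zero (Finset.mem_univ l) (wd_self _), mul_zero]
      rw [← norm_prod, ← norm_mul, ← h', ht, wd_smul_left, norm_smul, norm_mul, hY, mul_one]
    have h2 := Finset.prod_congr (rfl : (Finset.univ : Finset (Fin d)) = Finset.univ)
      fun l _ => h1 l
    rw [Finset.prod_mul_distrib, Finset.prod_mul_distrib, Finset.prod_const, Finset.prod_const,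
      Finset.card_univ, Fintype.card_fin] at h2
    linear_combination ‖c‖ ^ d * h2
  have k1 := key Y Y' hY hYn c c' η η' h h'
  have k2 := key Y' Y hY' hYn' c' c η' η h' h
  rw [wd_comm Y' Y, norm_neg] at k2
  have h3 : ∏ l, ∏ l', ‖wd (η' l) (η l')‖ = ∏ l, ∏ l', ‖wd (η l) (η' l')‖ := by
    rw [Finset.prod_comm]
    apply Finset.prod_congr rfl
    intro l _
    apply Finset.prod_congr rfl
    intro l' _
    rw [wd_comm, norm_neg]
  rw [h3] at k2
  have hw' : ‖wd Y Y'‖ ^ d ≠ 0 := pow_ne_zero _ (norm_ne_zero_iff.mpr hw)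
  apply mul_left_cancel₀ hw'
  rw [k1, k2]
  ring

/-- the homogeneous map of a rational function -/
theorem exists_base [IsAlgClosed Ω] [IsUltrametricDist Ω] (d : ℕ) (p q : Polynomial Ω)
    (hp : p.natDegree ≤ d) (hq : q.natDegree = d) (hd : 1 ≤ d) (hco : IsCoprime p q) :
    ∃ S : HS Ω, S.F = bF d p q ∧ S.d = d ∧
      Real.exp (-S.Res) = ‖resultant q p d d‖ := by
  have hq0 : q ≠ 0 := by
    rintro rfl
    simp at hq
    omega
  -- the value at (1,0)
  obtain ⟨ζ, hζ⟩ := exists_root_family q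
  have hres : resultant q p d d = q.leadingCoeff ^ d * (q.roots.map p.eval).prod := by
    have := resultant_eq_prod_eval q p d hp (IsAlgClosed.splits q)
    rw [hq] at this
    exact this
  have hval : ∀ (c : Ω) (η : Fin d → Ω × Ω), (∀ X, wd (bF d p q X) (1, 0) = c * ∏ l, wd X (η l)) →
      ‖c‖ ^ d * ∏ l, ‖bF d p q (η l)‖ = ‖resultant q p d d‖ := by
    intro c η h
    have hb : ∀ l, (η l).2 ≠ 0 := by
      intro l hl
      have h1 := h (1, 0)
      have h2 : wd ((1, 0) : Ω × Ω) (η l) = 0 := by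
        unfold wd
        simp [hl]
      rw [Finset.prod_eq_zero (Finset.mem_univ l) h2, mul_zero] at h1
      have h3 : wd (bF d p q (1, 0)) ((1, 0) : Ω × Ω) = -(q.coeff d) := by
        unfold wd bF
        rw [hev_zero, hev_zero]
        simp
      rw [h3, neg_eq_zero, ← hq] at h1
      exact Polynomial.leadingCoeff_ne_zero.mpr hq0 h1
    have hqe : q = C (-(c * ∏ l, (η l).2)) *
        ((Finset.univ.val.map fun l => (η l).1 / (η l).2).map fun a => X - C a).prod := by
      apply Polynomial.funext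
      intro z
      have h1 := h (z, 1)
      have h3 : wd (bF d p q (z, 1)) ((1, 0) : Ω × Ω) = -(q.eval z) := by
        unfold wd bF
        rw [hev_one d q hq.le]
        simp
      rw [h3] at h1
      have h4 : ∏ l, wd ((z, 1) : Ω × Ω) (η l) =
          (∏ l, (η l).2) * ∏ l, (z - (η l).1 / (η l).2) := by
        rw [← Finset.prod_mul_distrib]
        apply Finset.prod_congr rfl
        intro l _
        have := hb l
        unfold wd
        field_simp
      rw [h4] at h1
      rw [Multiset.map_map, Polynomial.eval_mul, Polynomial.eval_C]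
      have h5 : Polynomial.eval z (Multiset.map ((fun a => X - C a) ∘ fun l => (η l).1 / (η l).2)
          Finset.univ.val).prod = ∏ l, (z - (η l).1 / (η l).2) := by
        show Polynomial.eval z (∏ l, (X - C ((η l).1 / (η l).2))) = _
        rw [Polynomial.eval_prod]
        apply Finset.prod_congr rfl
        intro l _
        simp
      rw [h5]
      linear_combination -h1
    have hk0 : -(c * ∏ l, (η l).2) ≠ 0 := by
      intro h0
      rw [h0] at hqe
      apply hq0
      rw [hqe]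
      simp
    have hmon : ((Finset.univ.val.map fun l => (η l).1 / (η l).2).map fun a => X - C a).prod.Monic :=
      Polynomial.monic_multiset_prod_of_monic _ _ fun a _ => Polynomial.monic_X_sub_C a
    have hlc : q.leadingCoeff = -(c * ∏ l, (η l).2) := by
      conv_lhs => rw [hqe]
      rw [Polynomial.leadingCoeff_mul, hmon.leadingCoeff, mul_one, Polynomial.leadingCoeff_C]
    have hroots : q.roots = Finset.univ.val.map fun l => (η l).1 / (η l).2 := by
      conv_lhs => rw [hqe]
      rw [Polynomial.roots_C_mul _ hk0, Polynomial.roots_multiset_prod_X_sub_C]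
    rw [hres, hlc, hroots, Multiset.map_map, norm_mul, norm_pow, norm_neg, norm_mul]
    have h6 : (Multiset.map (p.eval ∘ fun l => (η l).1 / (η l).2) Finset.univ.val).prod =
        ∏ l, p.eval ((η l).1 / (η l).2) := rfl
    rw [h6, norm_prod, norm_prod, mul_pow, mul_assoc, ← Finset.prod_pow,
      ← Finset.prod_mul_distrib]
    congr 1
    apply Finset.prod_congr rfl
    intro l _
    have h7 : hev d q (η l) = 0 := by
      have h1 := h (η l)
      rw [Finset.prod_eq_zero (Finset.mem_univ l) (wd_self _), mul_zero] at h1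
      unfold wd bF at h1
      simpa using h1
    have h8 : bF d p q (η l) = (hev d p (η l), 0) := Prod.ext rfl h7
    rw [h8, hev_eval d p hp _ (hb l)]
    rw [Prod.norm_def]
    simp only [norm_zero]
    rw [max_eq_left (norm_nonneg _), norm_mul, norm_pow]
  have hpos : 0 < ‖resultant q p d d‖ := by
    obtain ⟨c, η, hc, hη, h⟩ := bF_roots d p q hp hq hd hco (1, 0) (by
      intro h
      have := congrArg Prod.fst h
      simp at this)
    rw [← hval c η h]
    apply mul_pos (pow_pos (norm_pos_iff.mpr hc) _)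
    apply Finset.prod_pos
    intro l _
    apply norm_pos_iff.mpr
    apply bF_nz d p q hp hq hd hco
    intro h0
    have := hη l
    rw [h0] at this
    simp at this
  refine ⟨⟨bF d p q, d, hd, -Real.log ‖resultant q p d d‖, bF_hom d p q,
    bF_nz d p q hp hq hd hco, ?_⟩, rfl, rfl, ?_⟩
  · intro Y hY
    have hYn : Y ≠ 0 := by rintro rfl; simp at hY
    obtain ⟨c, η, hc, hη, h⟩ := bF_roots d p q hp hq hd hco Y hYn
    refine ⟨c, η, hc, hη, h, ?_⟩
    rw [neg_neg, Real.exp_log hpos]
    have e1 : ‖((1, 0) : Ω × Ω)‖ = 1 := norm_e1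
    have e2 : ‖((0, 1) : Ω × Ω)‖ = 1 := norm_e2
    obtain ⟨c₁, η₁, hc₁, hη₁, h₁⟩ := bF_roots d p q hp hq hd hco (1, 0) (by
      intro h
      rw [h] at e1
      simp at e1)
    by_cases hw : wd Y ((1, 0) : Ω × Ω) = 0
    · obtain ⟨c₂, η₂, hc₂, hη₂, h₂⟩ := bF_roots d p q hp hq hd hco (0, 1) (by
        intro h
        rw [h] at e2
        simp at e2)
      have hw2 : wd Y ((0, 1) : Ω × Ω) ≠ 0 := by
        intro h3
        apply hYn
        unfold wd at hw h3
        ext
        · simpa using h3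
        · simpa using hw
      have hw3 : wd ((0, 1) : Ω × Ω) ((1, 0) : Ω × Ω) ≠ 0 := by
        unfold wd
        simp
      rw [res_indep (bF d p q) d Y (0, 1) hY e2 hw2 c c₂ η η₂ h h₂,
        res_indep (bF d p q) d (0, 1) (1, 0) e2 e1 hw3 c₂ c₁ η₂ η₁ h₂ h₁]
      exact hval c₁ η₁ h₁
    · rw [res_indep (bF d p q) d Y (1, 0) hY e1 hw c c₁ η η₁ h h₁]
      exact hval c₁ η₁ h₁
  · simp only [neg_neg]
    exact Real.exp_log hpos

end Pool.Agent.W277.UH
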