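import Pool.Agent.W277.UH.L3
import Pool.Agent.W277.UG.A2
import Pool.Agent.W277.UG.A5

/-!
# Generic vectors and the kernel
-/

namespace Pool.Agent.W277.UH

open Pool.Agent.W277.UG Finset

variable {Ω : Type*} [NormedField Ω] [IsUltrametricDist Ω]

/-- a residue class contains at most one vector of the standard family -/
lemma class_unique {X Y U : Ω × Ω} (hX : ‖X‖ = 1) (hY : ‖Y‖ = 1) (hU : ‖U‖ = 1)
    (hXY : ‖wd X Y‖ = 1) (h1 : ‖wd X U‖ < 1) (h2 : ‖wd Y U‖ < 1) : False := by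
  have h3 := wd_ultra hX hY hU
  rw [wd_comm U Y, norm_neg] at h3
  have := max_lt h1 h2
  linarith

/-- an infinite family of vectors in distinct residue classes -/
structure Fam (Ω : Type*) [NormedField Ω] where
  /-- the vectors -/
  b : ℕ → Ω × Ω
  unit : ∀ i, ‖b i‖ = 1
  sep : ∀ i j, i ≠ j → ‖wd (b i) (b j)‖ = 1

lemma exists_fam (hnat : ∀ n : ℕ, n ≠ 0 → ‖(n : Ω)‖ = 1) : ∃ B : Fam Ω, ∀ i, B.b i = ((i : Ω), 1) := by
  refine ⟨⟨fun i => ((i : Ω), 1), ?_, ?_⟩, fun _ => rfl⟩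
  · intro i
    apply norm_pair_one
    by_cases hi : i = 0
    · subst hi; simp
    · exact (hnat i hi).le
  · intro i j hij
    unfold wd
    simp only [mul_one, one_mul]
    wlog h : j < i generalizing i j
    · have := this j i (Ne.symm hij) (by omega)
      rw [norm_sub_rev]
      exact this
    · have h1 : (i : Ω) - j = ((i - j : ℕ) : Ω) := by
        rw [Nat.cast_sub h.le]
      rw [h1]
      exact hnat _ (by omega)

/-- the indices whose class meets a finite set -/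
lemma bad_finite (B : Fam Ω) (T : Finset (Ω × Ω)) (hT : ∀ U ∈ T, ‖U‖ = 1) :
    ∃ E : Finset ℕ, ∀ i, i ∉ E → ∀ U ∈ T, ‖wd (B.b i) U‖ = 1 := by
  classical
  induction T using Finset.induction_on with
  | empty => exact ⟨∅, fun i _ U hU => absurd hU (Finset.notMem_empty U)⟩
  | insert a T ha ih =>
    obtain ⟨E, hE⟩ := ih fun U hU => hT U (Finset.mem_insert_of_mem hU)
    have ha1 := hT a (Finset.mem_insert_self a T)
    by_cases h : ∃ i₀, ‖wd (B.b i₀) a‖ < 1
    · obtain ⟨i₀, hi₀⟩ := h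
      refine ⟨insert i₀ E, ?_⟩
      intro i hi U hU
      rw [Finset.mem_insert, not_or] at hi
      rw [Finset.mem_insert] at hU
      rcases hU with rfl | hU
      · apply le_antisymm
        · refine (norm_wd_le _ _).trans ?_
          rw [B.unit, ha1, one_mul]
        · by_contra hlt
          push Not at hlt
          exact class_unique (B.unit i) (B.unit i₀) ha1 (B.sep i i₀ hi.1) hlt hi₀
      · exact hE i hi.2 U hU
    · push Not at h
      refine ⟨E, ?_⟩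
      intro i hi U hU
      rw [Finset.mem_insert] at hU
      rcases hU with rfl | hU
      · apply le_antisymm
        · refine (norm_wd_le _ _).trans ?_
          rw [B.unit, ha1, one_mul]
        · exact h i
      · exact hE i hi U hU

namespace HS

variable (S : HS Ω)

/-- the Gauss norm -/
noncomputable def gs : ℝ := max ‖(S.roots (0, 1) norm_e2).choose‖ ‖(S.roots (1, 0) norm_e1).choose‖

variable {S}

lemma gs_spec : ∃ (c₁ c₂ : Ω) (η₁ η₂ : Fin S.d → Ω × Ω), S.gs = max ‖c₁‖ ‖c₂‖ ∧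
    S.IsRS (0, 1) c₁ η₁ ∧ S.IsRS (1, 0) c₂ η₂ := by
  refine ⟨_, _, (S.roots (0, 1) norm_e2).choose_spec.choose,
    (S.roots (1, 0) norm_e1).choose_spec.choose, rfl, ?_, ?_⟩
  · exact (S.roots (0, 1) norm_e2).choose_spec.choose_spec
  · exact (S.roots (1, 0) norm_e1).choose_spec.choose_spec

lemma gs_pos : 0 < S.gs := by
  obtain ⟨c₁, c₂, η₁, η₂, h, h1, h2⟩ := gs_spec (S := S)
  rw [h]
  exact lt_max_of_lt_left (norm_pos_iff.mpr h1.1)

lemma rs_le {Y : Ω × Ω} {c : Ω} {η : Fin S.d → Ω × Ω} (h : S.IsRS Y c η) {X : Ω × Ω}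
    (hX : ‖X‖ ≤ 1) : ‖wd (S.F X) Y‖ ≤ ‖c‖ := by
  rw [rs_ord h]
  have : ∏ l, ‖wd X (η l)‖ ≤ 1 := by
    apply Finset.prod_le_one
    · intro l _; exact norm_nonneg _
    · intro l _
      refine (norm_wd_le _ _).trans ?_
      rw [h.2.1 l, mul_one]
      exact hX
  calc ‖c‖ * ∏ l, ‖wd X (η l)‖ ≤ ‖c‖ * 1 := mul_le_mul_of_nonneg_left this (norm_nonneg _)
    _ = ‖c‖ := mul_one _

lemma le_gs {X : Ω × Ω} (hX : ‖X‖ ≤ 1) : ‖S.F X‖ ≤ S.gs := by
  obtain ⟨c₁, c₂, η₁, η₂, h, h1, h2⟩ := gs_spec (S := S)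
  rw [norm_eq_of_e, h]
  exact max_le_max (rs_le h1 hX) (rs_le h2 hX)

/-- generic vectors attain the Gauss norm -/
lemma gs_attained (B : Fam Ω) : ∃ E : Finset ℕ, ∀ i, i ∉ E → ‖S.F (B.b i)‖ = S.gs := by
  classical
  obtain ⟨c₁, c₂, η₁, η₂, h, h1, h2⟩ := gs_spec (S := S)
  obtain ⟨E, hE⟩ := bad_finite B (Finset.univ.image η₁ ∪ Finset.univ.image η₂) (by
    intro U hU
    rw [Finset.mem_union, Finset.mem_image, Finset.mem_image] at hU
    rcases hU with ⟨l, _, rfl⟩ | ⟨l, _, rfl⟩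
    · exact h1.2.1 l
    · exact h2.2.1 l)
  refine ⟨E, fun i hi => ?_⟩
  have e1 : ‖wd (S.F (B.b i)) (0, 1)‖ = ‖c₁‖ := by
    rw [rs_ord h1, Finset.prod_eq_one, mul_one]
    intro l _
    exact hE i hi _ (Finset.mem_union_left _ (Finset.mem_image_of_mem _ (Finset.mem_univ l)))
  have e2 : ‖wd (S.F (B.b i)) (1, 0)‖ = ‖c₂‖ := by
    rw [rs_ord h2, Finset.prod_eq_one, mul_one]
    intro l _
    exact hE i hi _ (Finset.mem_union_right _ (Finset.mem_image_of_mem _ (Finset.mem_univ l)))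
  rw [norm_eq_of_e, e1, e2, h]

/-- attained by generic vectors -/
lemma rs_attained (B : Fam Ω) {Y : Ω × Ω} {c : Ω} {η : Fin S.d → Ω × Ω} (h : S.IsRS Y c η) :
    ∃ E : Finset ℕ, ∀ i, i ∉ E → ‖wd (S.F (B.b i)) Y‖ = ‖c‖ := by
  classical
  obtain ⟨E, hE⟩ := bad_finite B (Finset.univ.image η) (by
    intro U hU
    rw [Finset.mem_image] at hU
    obtain ⟨l, _, rfl⟩ := hU
    exact h.2.1 l)
  refine ⟨E, fun i hi => ?_⟩
  rw [rs_ord h, Finset.prod_eq_one, mul_one]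
  intro l _
  exact hE i hi _ (Finset.mem_image_of_mem _ (Finset.mem_univ l))

lemma rs_le_gs (B : Fam Ω) {Y : Ω × Ω} (hY : ‖Y‖ = 1) {c : Ω} {η : Fin S.d → Ω × Ω}
    (h : S.IsRS Y c η) : ‖c‖ ≤ S.gs := by
  obtain ⟨E, hE⟩ := rs_attained B h
  obtain ⟨i, hi⟩ := Infinite.exists_notMem_finset E
  rw [← hE i hi]
  refine (norm_wd_le _ _).trans ?_
  rw [hY, mul_one]
  exact le_gs (B.unit i).le

/-- among two separated vectors one is generic -/
lemma gs_le_max {Y Y' : Ω × Ω} (hY : ‖Y‖ = 1) (hY' : ‖Y'‖ = 1) (hYY : ‖wd Y Y'‖ = 1)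
    {c c' : Ω} {η η' : Fin S.d → Ω × Ω} (h : S.IsRS Y c η) (h' : S.IsRS Y' c' η') (B : Fam Ω) :
    S.gs ≤ max ‖c‖ ‖c'‖ := by
  obtain ⟨E, hE⟩ := gs_attained (S := S) B
  obtain ⟨i, hi⟩ := Infinite.exists_notMem_finset E
  rw [← hE i hi]
  refine (norm_le_of_wd hY hY' hYY _).trans (max_le_max ?_ ?_)
  · exact rs_le h (B.unit i).le
  · exact rs_le h' (B.unit i).le

/-- all but one member of the family are generic targets -/
lemma target_generic (B : Fam Ω) : ∃ E : Finset ℕ, ∀ i, i ∉ E → ∀ c η, S.IsRS (B.b i) c η →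
    ‖c‖ = S.gs := by
  classical
  by_cases h : ∃ i₀ c₀ η₀, S.IsRS (B.b i₀) c₀ η₀ ∧ ‖c₀‖ ≠ S.gs
  · obtain ⟨i₀, c₀, η₀, h1, h2⟩ := h
    refine ⟨{i₀}, fun i hi c η hc => ?_⟩
    rw [Finset.mem_singleton] at hi
    have h3 := gs_le_max (B.unit i) (B.unit i₀) (B.sep i i₀ hi) hc h1 B
    have h4 : ‖c₀‖ < S.gs := lt_of_le_of_ne (rs_le_gs B (B.unit i₀) h1) h2
    apply le_antisymm (rs_le_gs B (B.unit i) hc)
    rcases le_max_iff.mp h3 with h5 | h5
    · exact h5
    · linarith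
  · push Not at h
    exact ⟨∅, fun i _ c η hc => h i c η hc⟩

/-- the lower bound -/
lemma lower (B : Fam Ω) (hgs : S.gs ≤ 1) {X : Ω × Ω} (hX : ‖X‖ = 1) :
    Real.exp (-S.Res) ≤ ‖S.F X‖ := by
  have hX0 : X ≠ 0 := by rintro rfl; simp at hX
  obtain ⟨t, Y, ht, hY, hFY, _⟩ := exists_unit _ (S.nz X hX0)
  obtain ⟨c, η, hc, hη, hr, hR⟩ := S.roots Y hY
  have h1 : wd (S.F X) Y = 0 := by rw [hFY, wd_smul_left, wd_self, mul_zero]
  rw [hr] at h1
  have h2 := (mul_eq_zero.mp h1).resolve_left hc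
  obtain ⟨l₀, _, hl₀⟩ := Finset.prod_eq_zero_iff.mp h2
  have hη0 : η l₀ ≠ 0 := by
    intro h0
    have := hη l₀
    rw [h0] at this
    simp at this
  obtain ⟨u, hu⟩ := (wd_zero_iff hη0).mp hl₀
  have hu1 : ‖u‖ = 1 := by
    have := congrArg norm hu
    rw [norm_smul, hX, hη l₀, mul_one] at this
    exact this.symm
  have h3 : ‖S.F X‖ = ‖S.F (η l₀)‖ := by
    rw [hu, S.hom, norm_smul, norm_pow, hu1, one_pow, one_mul]
  rw [h3, ← hR]
  have h4 : ‖c‖ ^ S.d ≤ 1 := pow_le_one₀ (norm_nonneg _)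
    ((rs_le_gs B hY ⟨hc, hη, hr, hR⟩).trans hgs)
  have h5 : ∏ l, ‖S.F (η l)‖ ≤ ‖S.F (η l₀)‖ := by
    classical
    rw [← Finset.mul_prod_erase _ _ (Finset.mem_univ l₀)]
    have : ∏ l ∈ Finset.univ.erase l₀, ‖S.F (η l)‖ ≤ 1 := by
      apply Finset.prod_le_one
      · intro l _; exact norm_nonneg _
      · intro l _; exact (le_gs (hη l).le).trans hgs
    calc _ ≤ ‖S.F (η l₀)‖ * 1 := mul_le_mul_of_nonneg_left this (norm_nonneg _)
      _ = _ := mul_one _
  have h6 : 0 ≤ ∏ l, ‖S.F (η l)‖ := Finset.prod_nonneg fun l _ => norm_nonneg _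
  nlinarith

end HS

/-- the truncated kernel -/
noncomputable def kw (T : ℝ) (X Y : Ω × Ω) : ℝ := by
  classical exact if wd X Y = 0 then T else min (-Real.log ‖wd X Y‖) T

lemma kw_symm (T : ℝ) (X Y : Ω × Ω) : kw T X Y = kw T Y X := by
  unfold kw
  by_cases h : wd X Y = 0
  · have h' : wd Y X = 0 := by rw [wd_comm, h, neg_zero]
    simp [h, h']
  · have h' : wd Y X ≠ 0 := by rw [wd_comm]; exact neg_ne_zero.mpr h
    simp only [h, h', if_false]
    rw [wd_comm X Y, norm_neg]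

lemma kw_le (T : ℝ) (X Y : Ω × Ω) : kw T X Y ≤ T := by
  unfold kw
  by_cases h : wd X Y = 0
  · simp [h]
  · simp [h]

lemma kw_ne {T : ℝ} {X Y : Ω × Ω} (h : wd X Y ≠ 0) : kw T X Y = min (-Real.log ‖wd X Y‖) T := by
  unfold kw
  simp [h]

lemma kw_le_log {T : ℝ} {X Y : Ω × Ω} (h : wd X Y ≠ 0) : kw T X Y ≤ -Real.log ‖wd X Y‖ := by
  rw [kw_ne h]
  exact min_le_left _ _

lemma kw_nonneg {T : ℝ} (hT : 0 ≤ T) {X Y : Ω × Ω} (hX : ‖X‖ = 1) (hY : ‖Y‖ = 1) :
    0 ≤ kw T X Y := by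
  unfold kw
  by_cases h : wd X Y = 0
  · simp [h, hT]
  · simp only [h, if_false]
    apply le_min _ hT
    have h1 := norm_wd_le X Y
    rw [hX, hY, one_mul] at h1
    have := Real.log_nonpos (norm_nonneg _) h1
    linarith

lemma kw_ultra (T : ℝ) {X Y U : Ω × Ω} (hX : ‖X‖ = 1) (hY : ‖Y‖ = 1) (hU : ‖U‖ = 1) :
    min (kw T X U) (kw T U Y) ≤ kw T X Y := by
  have h1 := wd_ultra hX hY hU
  by_cases h : wd X Y = 0
  · have : kw T X Y = T := by unfold kw; simp [h]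
    rw [this]
    exact (min_le_left _ _).trans (kw_le T X U)
  · rw [kw_ne h]
    apply le_min
    · by_cases hXU : wd X U = 0
      · rw [hXU, norm_zero] at h1
        have hUY : wd U Y ≠ 0 := by
          intro h0
          rw [h0, norm_zero, max_self] at h1
          exact h (norm_le_zero_iff.mp h1)
        rw [max_eq_right (norm_nonneg _)] at h1
        refine (min_le_right _ _).trans ((kw_le_log hUY).trans ?_)
        exact neg_le_neg (Real.log_le_log (norm_pos_iff.mpr h) h1)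
      · by_cases hUY : wd U Y = 0
        · rw [hUY, norm_zero, max_eq_left (norm_nonneg _)] at h1
          refine (min_le_left _ _).trans ((kw_le_log hXU).trans ?_)
          exact neg_le_neg (Real.log_le_log (norm_pos_iff.mpr h) h1)
        · rcases le_total ‖wd X U‖ ‖wd U Y‖ with h2 | h2
          · rw [max_eq_right h2] at h1
            refine (min_le_right _ _).trans ((kw_le_log hUY).trans ?_)
            exact neg_le_neg (Real.log_le_log (norm_pos_iff.mpr h) h1)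
          · rw [max_eq_left h2] at h1
            refine (min_le_left _ _).trans ((kw_le_log hXU).trans ?_)
            exact neg_le_neg (Real.log_le_log (norm_pos_iff.mpr h) h1)
    · exact (min_le_left _ _).trans (kw_le T X U)

/-- positive definiteness -/
lemma kw_psd {ι : Type*} [Fintype ι] (T : ℝ) (hT : 0 ≤ T) (X : ι → Ω × Ω) (hX : ∀ i, ‖X i‖ = 1)
    (σ : ι → ℝ) : 0 ≤ ∑ i, ∑ j, σ i * σ j * kw T (X i) (X j) :=
  psd_univ (fun i j => kw T (X i) (X j)) σ (fun i j => kw_symm T _ _)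
    (fun i j l => kw_ultra T (hX i) (hX j) (hX l)) fun i j => kw_nonneg hT (hX i) (hX j)

end Pool.Agent.W277.UH
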